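import Mathlib

/-!
# Polynomials times exponentials
-/

open Filter

namespace Pool.Agent.R910.Sgn

lemma poly_bdd {r : ℝ} (h0 : 0 ≤ r) (h1 : r < 1) (k : ℕ) :
    ∃ B : ℝ, 0 ≤ B ∧ ∀ n : ℕ, (n : ℝ) ^ k * r ^ n ≤ B := by
  have h := tendsto_pow_const_mul_const_pow_of_abs_lt_one k (r := r) (by rwa [abs_of_nonneg h0])
  obtain ⟨B, hB⟩ := h.bddAbove_range
  refine ⟨max B 0, le_max_right _ _, fun n => (hB ⟨n, rfl⟩).trans (le_max_left _ _)⟩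

lemma poly_exp {q : ℕ} (hq : 0 < q) {κ θ : ℝ} (h0 : 0 ≤ κ) (hθ : 0 < θ) (h1 : κ < θ ^ q) (k : ℕ) :
    ∃ C : ℝ, 0 ≤ C ∧ ∀ m : ℕ, ((m : ℝ) + 2) ^ k * κ ^ (m / q) ≤ C * θ ^ m := by
  have hθq : 0 < θ ^ q := pow_pos hθ q
  set r : ℝ := max (κ / θ ^ q) (1 / 2) with hr
  have hr1 : r < 1 := max_lt ((div_lt_one hθq).2 h1) (by norm_num)
  have hr0 : 0 < r := lt_of_lt_of_le (by norm_num) (le_max_right _ _)
  have hκ : κ ≤ r * θ ^ q := (div_le_iff₀ hθq).1 (le_max_left _ _)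
  obtain ⟨B, hB0, hB⟩ := poly_bdd hr0.le hr1 k
  set M : ℝ := max 1 (1 / θ ^ q) with hM
  have hM0 : 0 < M := lt_of_lt_of_le one_pos (le_max_left _ _)
  refine ⟨((q : ℝ) + 2) ^ k * (B / r ^ 2) * M, by positivity, fun m => ?_⟩
  have h2 : 1 ≤ M * θ ^ (m % q) := by
    rcases le_total 1 θ with h | h
    · calc (1 : ℝ) = 1 * 1 := (mul_one 1).symm
        _ ≤ M * θ ^ (m % q) := mul_le_mul (le_max_left _ _) (one_le_pow₀ h) zero_le_one hM0.le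
    · have h3 : θ ^ q ≤ θ ^ (m % q) := pow_le_pow_of_le_one hθ.le h (Nat.mod_lt _ hq).le
      calc (1 : ℝ) = 1 / θ ^ q * θ ^ q := (div_mul_cancel₀ _ hθq.ne').symm
        _ ≤ M * θ ^ (m % q) := mul_le_mul (le_max_right _ _) h3 hθq.le hM0.le
  have h4 : (θ ^ q) ^ (m / q) * θ ^ (m % q) = θ ^ m := by
    rw [← pow_mul, ← pow_add, Nat.div_add_mod]
  have h5 : κ ^ (m / q) ≤ r ^ (m / q) * (M * θ ^ m) := by
    calc κ ^ (m / q) ≤ (r * θ ^ q) ^ (m / q) := pow_le_pow_left₀ h0 hκ _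
      _ = r ^ (m / q) * ((θ ^ q) ^ (m / q) * 1) := by rw [mul_pow, mul_one]
      _ ≤ r ^ (m / q) * ((θ ^ q) ^ (m / q) * (M * θ ^ (m % q))) := by gcongr
      _ = r ^ (m / q) * (M * θ ^ m) := by rw [← h4]; ring
  have h6 : (m : ℝ) + 2 ≤ ((q : ℝ) + 2) * (((m / q : ℕ) : ℝ) + 2) := by
    have h7 : m ≤ q * (m / q) + q := by
      have := Nat.div_add_mod m q
      have := Nat.mod_lt m hq
      omega
    have h8 : (m : ℝ) ≤ q * ((m / q : ℕ) : ℝ) + q := by exact_mod_cast h7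
    have h9 : (0 : ℝ) ≤ ((m / q : ℕ) : ℝ) := Nat.cast_nonneg _
    have h10 : (0 : ℝ) ≤ q := Nat.cast_nonneg _
    nlinarith
  have h11 : (((m / q : ℕ) : ℝ) + 2) ^ k * r ^ (m / q) ≤ B / r ^ 2 := by
    rw [le_div_iff₀ (by positivity), mul_assoc, ← pow_add]
    have := hB (m / q + 2)
    push_cast at this
    exact this
  calc ((m : ℝ) + 2) ^ k * κ ^ (m / q) ≤ (((q : ℝ) + 2) * (((m / q : ℕ) : ℝ) + 2)) ^ k *
        (r ^ (m / q) * (M * θ ^ m)) := by gcongr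
    _ = ((q : ℝ) + 2) ^ k * ((((m / q : ℕ) : ℝ) + 2) ^ k * r ^ (m / q)) * (M * θ ^ m) := by
        rw [mul_pow]; ring
    _ ≤ ((q : ℝ) + 2) ^ k * (B / r ^ 2) * (M * θ ^ m) := by gcongr
    _ = ((q : ℝ) + 2) ^ k * (B / r ^ 2) * M * θ ^ m := by ring

/-- The final estimate. -/
lemma final_est {b bQ dP dQ q : ℕ} (hq : 0 < q) (hb : 2 ≤ b ^ q) {θ : ℝ} (hθ : 0 < θ)
    {C : ℝ} (hC : ∀ m : ℕ, ((m : ℝ) + 2) ^ (b ^ 2 + 2) *
      (((b : ℝ) ^ q - 2) / (b : ℝ) ^ q) ^ (m / q) ≤ C * θ ^ m) (m : ℕ) {E T : ℝ} (hT : 0 ≤ T)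
    (h1 : E ≤ (((m + 1) * dP + dQ + 2 : ℕ) : ℝ) *
      (((b ^ q - 2) ^ (m / q) * (b ^ (m % q + 1) * bQ) : ℕ) : ℝ))
    (h2 : ((b ^ m : ℕ) : ℝ) ≤ (((m + 1) * dP + dQ + 1 : ℕ) : ℝ) * T * (((m + 2) ^ (b ^ 2) : ℕ) : ℝ)) :
    E ≤ (((dP + dQ + 2) ^ 2 * bQ * b : ℕ) : ℝ) * C * θ ^ m * T := by
  have hbpos : 0 < b := by
    rcases Nat.eq_zero_or_pos b with rfl | h
    · rw [zero_pow hq.ne'] at hb; omega
    · exact h
  have hb' : (0 : ℝ) < b := by exact_mod_cast hbpos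
  set A : ℝ := ((dP + dQ + 2 : ℕ) : ℝ) * ((m : ℝ) + 2) with hA
  have hA0 : 0 ≤ A := by positivity
  have hA1 : (((m + 1) * dP + dQ + 2 : ℕ) : ℝ) ≤ A := by
    rw [hA]
    push_cast
    have e1 : (0 : ℝ) ≤ dP := by positivity
    have e2 : (0 : ℝ) ≤ dQ := by positivity
    have e3 : (0 : ℝ) ≤ m := by positivity
    nlinarith [mul_nonneg e2 e3]
  have hA2 : (((m + 1) * dP + dQ + 1 : ℕ) : ℝ) ≤ A := by
    refine le_trans ?_ hA1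
    push_cast
    linarith
  set κ : ℝ := ((b : ℝ) ^ q - 2) / (b : ℝ) ^ q with hκ
  have hbq : (2 : ℝ) ≤ (b : ℝ) ^ q := by exact_mod_cast hb
  have hκ0 : 0 ≤ κ := div_nonneg (by linarith) (by linarith)
  have hcast : (((b ^ q - 2) ^ (m / q) * (b ^ (m % q + 1) * bQ) : ℕ) : ℝ) =
      ((b : ℝ) ^ q - 2) ^ (m / q) * ((b : ℝ) ^ (m % q + 1) * bQ) := by
    push_cast [Nat.cast_sub hb]
    ring
  have hkey : ((b : ℝ) ^ q - 2) ^ (m / q) * ((b : ℝ) ^ (m % q + 1) * bQ) =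
      κ ^ (m / q) * (b : ℝ) ^ m * (bQ * b) := by
    have h3 : (b : ℝ) ^ m = ((b : ℝ) ^ q) ^ (m / q) * (b : ℝ) ^ (m % q) := by
      rw [← pow_mul, ← pow_add, Nat.div_add_mod]
    have h4 : ((b : ℝ) ^ q - 2) ^ (m / q) = κ ^ (m / q) * ((b : ℝ) ^ q) ^ (m / q) := by
      rw [← mul_pow, hκ, div_mul_cancel₀]
      linarith
    rw [h3, h4, pow_succ]
    ring
  rw [hcast, hkey] at h1
  have h5 : ((b ^ m : ℕ) : ℝ) = (b : ℝ) ^ m := by push_cast; rfl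
  have h6 : (((m + 2) ^ (b ^ 2) : ℕ) : ℝ) = ((m : ℝ) + 2) ^ (b ^ 2) := by push_cast; rfl
  rw [h5, h6] at h2
  have h7 : (b : ℝ) ^ m ≤ A * T * ((m : ℝ) + 2) ^ (b ^ 2) := by
    refine h2.trans ?_
    apply mul_le_mul_of_nonneg_right _ (by positivity)
    exact mul_le_mul_of_nonneg_right hA2 hT
  have h8 : κ ^ (m / q) * (b : ℝ) ^ m * (bQ * b) ≤
      κ ^ (m / q) * (A * T * ((m : ℝ) + 2) ^ (b ^ 2)) * (bQ * b) := by
    apply mul_le_mul_of_nonneg_right _ (by positivity)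
    exact mul_le_mul_of_nonneg_left h7 (by positivity)
  have h9 : 0 ≤ κ ^ (m / q) * (A * T * ((m : ℝ) + 2) ^ (b ^ 2)) * (bQ * b) := by positivity
  have h10 : E ≤ A * (κ ^ (m / q) * (A * T * ((m : ℝ) + 2) ^ (b ^ 2)) * (bQ * b)) := by
    refine h1.trans ?_
    refine mul_le_mul hA1 h8 ?_ hA0
    positivity
  refine h10.trans ?_
  have h11 : A * (κ ^ (m / q) * (A * T * ((m : ℝ) + 2) ^ (b ^ 2)) * (bQ * b)) =
      (((dP + dQ + 2) ^ 2 * bQ * b : ℕ) : ℝ) * T *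
        (((m : ℝ) + 2) ^ (b ^ 2 + 2) * κ ^ (m / q)) := by
    rw [hA, pow_add]
    push_cast
    ring
  rw [h11]
  have h12 : (((dP + dQ + 2) ^ 2 * bQ * b : ℕ) : ℝ) * C * θ ^ m * T =
      (((dP + dQ + 2) ^ 2 * bQ * b : ℕ) : ℝ) * T * (C * θ ^ m) := by ring
  rw [h12]
  exact mul_le_mul_of_nonneg_left (hC m) (by positivity)

end Pool.Agent.R910.Sgn
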