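import Pool.Agent.R910.Sgn.Full2

/-!
# The converse: under the standard conjecture of Hodge type all classes are positive
-/

open CategoryTheory AlgebraicGeometry Finset

universe u v

namespace Pool.Agent.R910.Sgn

open Module
open Pool.Agent.H914 Pool.Agent.H914.VarClass Pool.Agent.H914.VarClass.Obj
  Pool.Agent.H914.WeilCohomology Pool.Agent.H281R3.HT Pool.Agent.W552 Pool.Agent.W539.Ker
  Pool.Agent.Y133.Half

variable {k : Type u} [Field k] {𝒱 : VarClass k} {ops : CycleOps 𝒱}
  {W : WeilCohomology.{u, v} ops} {X Y Z : 𝒱.Obj} {D : X.Cycles} {f : Module.End W.K (W.H X)}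
  {P Q : Polarized 𝒱}

/-- Under the standard conjecture of Hodge type all algebraic classes are positive. -/
theorem algDim_le (G : Gd W X D f) (hH : HodgeType W X D) :
    algDim W ⟨X, D⟩ ≤ positive W ⟨X, D⟩ := by
  classical
  choose ι hι y s h1 h2 h3 h4 h5 h6 h7 h8 using
    fun j : Fin (X.dim + 1) => exists_fam2 G.fr (2 * (j : ℕ) - X.dim : ℤ)
  have hs : ∀ j i, 0 < s j i := by
    intro j i
    have hy0 : y j i ≠ 0 := by
      intro h0
      have := h4 j i
      rw [h0, map_zero] at this
      exact h3 j i (by exact_mod_cast this.symm)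
    obtain ⟨q, hq, hq'⟩ := G.fr.bf_pos hH (h1 j i) hy0
    rw [h4] at hq'
    have : s j i = q := by exact_mod_cast hq'
    rw [this]; exact hq
  have hcard : ∀ j, Fintype.card (ι j) = wsumN X.dim (posNum W ⟨X, D⟩) (2 * (j : ℕ) - X.dim : ℤ) := by
    intro j
    rw [← h7, ← Finset.card_univ]
    congr 1
    ext i
    simp [hs j i]
  have hsum : Fintype.card (Σ j, ι j) = positive W ⟨X, D⟩ := by
    rw [Fintype.card_sigma, Finset.sum_congr rfl (fun j _ => hcard j), sum_wsumN]
    rfl
  have hspan : KA W X ≤ Submodule.span W.K (Set.range fun p : Σ j, ι j => y p.1 p.2) := by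
    rw [KA, Submodule.span_le]
    intro x hx
    have hx' : AS W X x := hx
    rw [Fr.AS_sum hx']
    apply Submodule.sum_mem
    intro j hj
    have hj' : j < X.dim + 1 := Finset.mem_range.1 hj
    have hp := hx'.proj j
    set u := proj (W.isInternal X) (2 * j) x with hu
    have huA : AS W X u := AS.of hp
    choose e he using fun i => G.fr.bf_rat huA (h1 ⟨j, hj'⟩ i)
    have hwtu : wt (W.isInternal X) X.dim u =
        ((2 * ((⟨j, hj'⟩ : Fin (X.dim + 1)) : ℕ) - X.dim : ℤ) : W.K) • u := by
      rw [Fr.wt_gr (alg_gr hp)]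
      congr 1
      push_cast
      ring
    set u' := u - ∑ i, ((e i / s ⟨j, hj'⟩ i : ℚ) : W.K) • y ⟨j, hj'⟩ i with hu'
    have hu'A : AS W X u' := AS.ratSub.sub huA (AS.ratSub.sum _ fun i _ => (h1 _ i).smul _)
    have hu'm : wt (W.isInternal X) X.dim u' =
        ((2 * ((⟨j, hj'⟩ : Fin (X.dim + 1)) : ℕ) - X.dim : ℤ) : W.K) • u' := by
      rw [hu', map_sub, hwtu, map_sum, smul_sub, Finset.smul_sum]
      congr 1
      apply Finset.sum_congr rfl
      intro i _
      rw [map_smul, h2, smul_comm]
    have hu'y : ∀ i, bf W X D f u' (y ⟨j, hj'⟩ i) = 0 := by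
      intro i
      rw [hu', map_sub, LinearMap.sub_apply, map_sum, LinearMap.sum_apply, he,
        Finset.sum_eq_single i]
      · rw [map_smul, LinearMap.smul_apply, h4, smul_eq_mul, ← Rat.cast_mul,
          div_mul_cancel₀ _ (h3 _ i), sub_self]
      · intro l _ hl
        rw [map_smul, LinearMap.smul_apply, h5 _ _ _ hl, smul_zero]
      · intro h0; exact absurd (Finset.mem_univ _) h0
    have h0 := h6 _ u' hu'A hu'm hu'y
    have hu0 : u' = 0 := by
      by_contra hne
      obtain ⟨q, hq, hq'⟩ := G.fr.bf_pos hH hu'A hne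
      rw [h0] at hq'
      have : q = 0 := by exact_mod_cast hq'.symm
      exact hq.ne' this
    have hu2 : u = ∑ i, ((e i / s ⟨j, hj'⟩ i : ℚ) : W.K) • y ⟨j, hj'⟩ i := sub_eq_zero.1 hu0
    rw [hu2]
    exact Submodule.sum_mem _ fun i _ => Submodule.smul_mem _ _
      (Submodule.subset_span ⟨⟨⟨j, hj'⟩, i⟩, rfl⟩)
  rw [← hsum, algDim]
  change finrank W.K (algSpan W X) ≤ _
  rw [← KA_eq]
  exact (Submodule.finrank_mono hspan).trans (finrank_range_le_card _)

/-- **The equivalence.** -/
theorem main3 (P : Polarized 𝒱) (hP : HasGq W P) (hdeg : PosDeg W P.X P.D) :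
    (∀ m, HodgeType W (power ops P m).X (power ops P m).D) ↔ ¬ AtMostHalf (ops := ops) W P := by
  constructor
  · intro hH hA
    obtain ⟨m, hm⟩ := hA (1 / 4) (by norm_num)
    have h1 := hm m le_rfl
    obtain ⟨f, G⟩ := hP.power (ops := ops) m
    have h2 : (algDim W (power ops P m) : ℝ) ≤ positive W (power ops P m) := by
      exact_mod_cast algDim_le G.gd (hH m)
    have h3 : 0 < algDim W (power ops P m) := by
      have h4 : Nontrivial (algSpan W (power ops P m).X) := by
        refine ⟨⟨1, ?_⟩, 0, fun h0 => ?_⟩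
        · rw [← KA_eq]; exact KA.one
        · have h5 : (1 : W.H (power ops P m).X) = 0 := congrArg Subtype.val h0
          obtain ⟨q, hq, hq'⟩ := posDeg_power hP hdeg m
          rw [h5, map_zero, map_zero] at hq'
          have : q = 0 := by exact_mod_cast hq'.symm
          exact hq.ne' this
      exact finrank_pos
    have h4 : (0 : ℝ) < algDim W (power ops P m) := by exact_mod_cast h3
    linarith
  · intro h
    exact (main2 P hP hdeg).resolve_right h

end Pool.Agent.R910.Sgn
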