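import Pool.Agent.R910.Sgn.Op

/-!
# The sum of the signatures over all codimensions
-/

open CategoryTheory AlgebraicGeometry Finset

universe u v

namespace Pool.Agent.R910.Sgn

open Module
open Pool.Agent.H914 Pool.Agent.H914.VarClass Pool.Agent.H914.VarClass.Obj
  Pool.Agent.H914.WeilCohomology Pool.Agent.H281R3.HT Pool.Agent.W552 Pool.Agent.W539.Ker

variable {k : Type u} [Field k] {𝒱 : VarClass k} {ops : CycleOps 𝒱}
  {W : WeilCohomology.{u, v} ops} {X Y : 𝒱.Obj} {D : X.Cycles} {f : Module.End W.K (W.H X)}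

lemma wsumN_val {d n : ℕ} (hn : 2 * n ≤ d) (σ : ℕ → ℕ) :
    wsumN d σ ((d : ℤ) - 2 * n) = ∑ i ∈ range (n + 1), σ i := by
  rw [wsumN, ← Finset.sum_filter]
  apply Finset.sum_congr
  · ext i
    rw [Finset.mem_filter, Finset.mem_range, Finset.mem_range]
    constructor
    · rintro ⟨h1, h2, -⟩
      rw [abs_of_nonneg (by omega)] at h2
      omega
    · intro h
      refine ⟨by omega, ?_, by omega⟩
      rw [abs_of_nonneg (by omega)]
      omega
  · intro _ _; rfl

lemma wsumN_le (d : ℕ) (σ : ℕ → ℕ) (m : ℤ) : wsumN d σ m ≤ ∑ n ∈ range (d / 2 + 1), σ n := by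
  apply Finset.sum_le_sum
  intro n _
  split_ifs
  · exact le_rfl
  · exact Nat.zero_le _

/-- **The sum of the absolute values of the signatures is small.** -/
theorem SO.excess_le (G : Gd W X D f) {ρ : ℚ} (hρ : 0 < ρ) {T Q : Module.End W.K (W.H X)}
    (h : SO W X D f ρ T Q) :
    excess W ⟨X, D⟩ ≤ (X.dim + 2) * (finrank W.K (LinearMap.range Q) : ℤ) := by
  set r := finrank W.K (LinearMap.range Q) with hr
  have key : ∀ n, 2 * n ≤ X.dim →
      |∑ i ∈ range (n + 1), ((posNum W ⟨X, D⟩ i : ℤ) - negNum W ⟨X, D⟩ i)| ≤ r := by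
    intro n hn
    obtain ⟨h1, h2⟩ := h.bound G hρ ((X.dim : ℤ) - 2 * n)
    rw [wsumN_val hn, wsumN_val hn, ← hr] at h1 h2
    rw [Finset.sum_sub_distrib, abs_le]
    have h3 : ((∑ i ∈ range (n + 1), posNum W ⟨X, D⟩ i : ℕ) : ℤ) =
      ∑ i ∈ range (n + 1), (posNum W ⟨X, D⟩ i : ℤ) := by push_cast; rfl
    have h4 : ((∑ i ∈ range (n + 1), negNum W ⟨X, D⟩ i : ℕ) : ℤ) =
      ∑ i ∈ range (n + 1), (negNum W ⟨X, D⟩ i : ℤ) := by push_cast; rfl
    rw [← h3, ← h4]
    constructor <;> omega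
  have key2 : ∀ n ∈ range (X.dim / 2 + 1), |(posNum W ⟨X, D⟩ n : ℤ) - negNum W ⟨X, D⟩ n| ≤
      2 * r := by
    intro n hn
    rw [Finset.mem_range] at hn
    have h1 := key n (by omega)
    rw [Finset.sum_range_succ] at h1
    rcases Nat.eq_zero_or_pos n with rfl | h0
    · rw [Finset.sum_range_zero, zero_add] at h1
      have : (0 : ℤ) ≤ r := by positivity
      linarith
    · have h2 := key (n - 1) (by omega)
      rw [Nat.sub_add_cancel h0] at h2
      rw [abs_le] at h1 h2 ⊢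
      constructor <;> linarith [h1.1, h1.2, h2.1, h2.2]
  rw [excess]
  refine (Finset.sum_le_sum key2).trans ?_
  rw [Finset.sum_const, Finset.card_range, nsmul_eq_mul]
  have h1 : (0 : ℤ) ≤ r := by positivity
  have h2 : ((X.dim / 2 + 1 : ℕ) : ℤ) * 2 ≤ X.dim + 2 := by omega
  calc ((X.dim / 2 + 1 : ℕ) : ℤ) * (2 * r) = (((X.dim / 2 + 1 : ℕ) : ℤ) * 2) * r := by ring
    _ ≤ (X.dim + 2) * r := mul_le_mul_of_nonneg_right h2 h1

end Pool.Agent.R910.Sgn
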