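import Pool.Agent.W539.Ker.Defs
import Pool.Agent.H914R2.StdDefs

/-!
# The numbers of positive and of negative primitive classes on the powers of a variety
-/

open CategoryTheory AlgebraicGeometry

universe u v

namespace Pool.Agent.R910.Sgn

open Pool.Agent.H914 Pool.Agent.H914.VarClass Pool.Agent.H914.VarClass.Obj
  Pool.Agent.H281R3.HT Pool.Agent.W539.Ker

variable {k : Type u} [Field k] {𝒱 : VarClass k} {ops : CycleOps 𝒱}

/-- The largest number of pairwise orthogonal primitive cycles of codimension `n` on `X` with
positive squares. -/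
noncomputable def posNum (W : WeilCohomology.{u, v} ops) (P : Polarized 𝒱) (n : ℕ) : ℕ :=
  sSup {r | HasFamily W P.X P.D n 1 r}

/-- The largest number of pairwise orthogonal primitive cycles of codimension `n` on `X` with
negative squares. -/
noncomputable def negNum (W : WeilCohomology.{u, v} ops) (P : Polarized 𝒱) (n : ℕ) : ℕ :=
  sSup {r | HasFamily W P.X P.D n (-1) r}

/-- The sum over all codimensions `n ≤ d / 2` of the distances of `posNum` and `negNum`. -/
noncomputable def excess (W : WeilCohomology.{u, v} ops) (P : Polarized 𝒱) : ℤ :=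
  ∑ n ∈ Finset.range (P.X.dim / 2 + 1), |(posNum W P n : ℤ) - negNum W P n|

/-- The number of primitive classes of all codimensions: the sum of all `posNum` and `negNum`. -/
noncomputable def total (W : WeilCohomology.{u, v} ops) (P : Polarized 𝒱) : ℕ :=
  ∑ n ∈ Finset.range (P.X.dim / 2 + 1), (posNum W P n + negNum W P n)

/-- The product of `m + 1` copies of `P`. -/
noncomputable def power (ops : CycleOps 𝒱) (P : Polarized 𝒱) : ℕ → Polarized 𝒱
  | 0 => P
  | m + 1 => (power ops P m).prod ops P

/-- The pairing is nonnegative on the primitive cycles of all codimensions. -/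
def HodgeNonneg (W : WeilCohomology.{u, v} ops) (P : Polarized 𝒱) : Prop :=
  ∀ (n : ℕ) (z : P.X.Cycles), 2 * n ≤ P.X.dim → Primitive W P.X P.D n z →
    0 ≤ pairing ops P.X P.D n z z

/-- The divisor satisfies the hard Lefschetz theorem and the Lefschetz standard conjecture. -/
def IsLefschetz (W : WeilCohomology.{u, v} ops) (P : Polarized 𝒱) : Prop :=
  P.X.IsCyc 1 P.D ∧ HardLefschetz W P.X P.D ∧ LefschetzB W P.X P.D

/-- The degree of the divisor is positive. -/
def PositiveDegree (ops : CycleOps 𝒱) (P : Polarized 𝒱) : Prop :=
  0 < P.X.V.degCycle (divPow ops P.D P.X.dim P.X.V.fundCycle)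

/-- The sum of the Betti numbers. -/
noncomputable def totalBetti (W : WeilCohomology.{u, v} ops) (P : Polarized 𝒱) : ℕ :=
  Module.finrank W.K (W.H P.X)

/-- The signs of the primitive classes on the products `P^(m+1) × Q` become equidistributed
exponentially fast, with rate `θ`. -/
def Equidistributed (W : WeilCohomology.{u, v} ops) (P Q : Polarized 𝒱) (θ : ℝ) : Prop :=
  ∃ C : ℝ, ∀ m : ℕ, (excess W ((power ops P m).prod ops Q) : ℝ) ≤
    C * θ ^ m * total W ((power ops P m).prod ops Q)

/-- The number of positive squares of the form on the space of all algebraic classes: a primitive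
class of codimension `n` contributes the `d - 2 n + 1` classes `x, D x, ..., D ^ (d - 2 n) x`. -/
noncomputable def positive (W : WeilCohomology.{u, v} ops) (P : Polarized 𝒱) : ℕ :=
  ∑ n ∈ Finset.range (P.X.dim / 2 + 1), (P.X.dim - 2 * n + 1) * posNum W P n

/-- The dimension of the space of all algebraic classes: of the span, with coefficients in the
coefficient field of the cohomology, of the classes of all algebraic cycles. -/
noncomputable def algDim (W : WeilCohomology.{u, v} ops) (P : Polarized 𝒱) : ℕ :=
  Module.finrank W.K (algSpan W P.X)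

/-- Asymptotically at most half of the algebraic classes on the powers of `P` are positive. -/
def AtMostHalf (W : WeilCohomology.{u, v} ops) (P : Polarized 𝒱) : Prop :=
  ∀ ε : ℝ, 0 < ε → ∃ m₀ : ℕ, ∀ m ≥ m₀,
    (positive W (power ops P m) : ℝ) ≤ (1 / 2 + ε) * algDim W (power ops P m)

end Pool.Agent.R910.Sgn
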