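import Pool.Agent.R910.Sgn.Main
import Pool.Agent.Y133.Half.Main2

/-!
# The law for the standard conjecture of Hodge type itself
-/

open CategoryTheory AlgebraicGeometry Finset

universe u v

namespace Pool.Agent.R910.Sgn

open Module
open Pool.Agent.H914 Pool.Agent.H914.VarClass Pool.Agent.H914.VarClass.Obj
  Pool.Agent.H914.WeilCohomology Pool.Agent.H281R3.HT Pool.Agent.W552 Pool.Agent.W539.Ker
  Pool.Agent.Y133.Half

/-- Summation over all weights. -/
lemma sum_wsumN (d : ℕ) (σ : ℕ → ℕ) : ∑ j : Fin (d + 1), wsumN d σ (2 * (j : ℕ) - d : ℤ) =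
    ∑ n ∈ range (d / 2 + 1), (d - 2 * n + 1) * σ n := by
  rw [← Finset.sum_range (fun j : ℕ => wsumN d σ (2 * (j : ℤ) - d))]
  simp only [wsumN]
  rw [Finset.sum_comm]
  apply Finset.sum_congr rfl
  intro n hn
  rw [Finset.mem_range] at hn
  rw [← Finset.sum_filter, Finset.sum_const, smul_eq_mul]
  congr 1
  have h1 : (range (d + 1)).filter (fun j : ℕ => |2 * (j : ℤ) - d| ≤ (d : ℤ) - 2 * n ∧
      (2 : ℤ) ∣ d + (2 * (j : ℤ) - d)) = Finset.Ico n (d - n + 1) := by
    ext j
    rw [Finset.mem_filter, Finset.mem_range, Finset.mem_Ico, abs_le]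
    constructor
    · rintro ⟨h1, ⟨h2, h3⟩, -⟩
      omega
    · rintro ⟨h1, h2⟩
      exact ⟨by omega, ⟨by omega, by omega⟩, by omega⟩
  rw [h1, Nat.card_Ico]
  omega

variable {k : Type u} [Field k] {𝒱 : VarClass k} {ops : CycleOps 𝒱}
  {W : WeilCohomology.{u, v} ops} {X Y Z : 𝒱.Obj} {D : X.Cycles} {f : Module.End W.K (W.H X)}
  {P Q : Polarized 𝒱}

/-- The number of negative squares on the space of all algebraic classes. -/
noncomputable def negative (W : WeilCohomology.{u, v} ops) (P : Polarized 𝒱) : ℕ :=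
  ∑ n ∈ Finset.range (P.X.dim / 2 + 1), (P.X.dim - 2 * n + 1) * negNum W P n

/-- The classes in the families for all weights give a lower bound for the rank of the
intersection form. -/
theorem le_a_of (G : Gd W X D f) : positive W ⟨X, D⟩ + negative W ⟨X, D⟩ ≤ (cyc W).a X := by
  classical
  choose ι hι y s h1 h2 h3 h4 h5 h6 h7 h8 using
    fun j : Fin (X.dim + 1) => exists_fam2 G.fr (2 * (j : ℕ) - X.dim : ℤ)
  have hcard : ∀ j, Fintype.card (ι j) = wsumN X.dim (posNum W ⟨X, D⟩) (2 * (j : ℕ) - X.dim : ℤ) +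
      wsumN X.dim (negNum W ⟨X, D⟩) (2 * (j : ℕ) - X.dim : ℤ) := by
    intro j
    rw [← h7, ← h8, ← Finset.card_univ, ← Finset.card_union_of_disjoint]
    · congr 1
      ext i
      simp only [Finset.mem_univ, Finset.mem_union, Finset.mem_filter, true_and, true_iff]
      rcases lt_trichotomy (s j i) 0 with h0 | h0 | h0
      · exact Or.inr h0
      · exact absurd h0 (h3 j i)
      · exact Or.inl h0
    · rw [Finset.disjoint_filter]
      intro i _ hi hi'
      exact absurd hi (not_lt.2 hi'.le)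
  have hsum : Fintype.card (Σ j, ι j) = positive W ⟨X, D⟩ + negative W ⟨X, D⟩ := by
    rw [Fintype.card_sigma, Finset.sum_congr rfl (fun j _ => hcard j), Finset.sum_add_distrib,
      sum_wsumN, sum_wsumN]
    rfl
  rw [← hsum]
  -- orthogonality between different weights
  have horth : ∀ p q : Σ j, ι j, p ≠ q → bf W X D f (y p.1 p.2) (y q.1 q.2) = 0 := by
    rintro ⟨j, i⟩ ⟨j', i'⟩ hne
    by_cases hjj : j = j'
    · subst hjj
      exact h5 j i i' (fun h0 => hne (by rw [h0]))
    · rcases AS_wt (h1 j i) (h2 j i) with h0 | ⟨l, hl, hl'⟩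
      · rw [h0, map_zero, LinearMap.zero_apply]
      rcases AS_wt (h1 j' i') (h2 j' i') with h0 | ⟨l', hl1, hl1'⟩
      · rw [h0, map_zero]
      refine G.fr.bf_deg (alg_gr hl') (alg_gr hl1') ?_
      intro h0
      apply hjj
      apply Fin.ext
      omega
  have hmem : ∀ {x : W.H X}, AS W X x → x ∈ (cyc W).C X := fun hx => KA.of hx
  have e1 := rk_ge (K := W.K) (A := (cyc W).C X) (B := (cyc W).C X)
    (A' := (Σ j, ι j) → W.K) ((cyc W).F X 1)
    (Fintype.linearCombination W.K fun p : Σ j, ι j =>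
      (⟨y p.1 p.2, hmem (h1 p.1 p.2)⟩ : (cyc W).C X))
    (Fintype.linearCombination W.K fun p : Σ j, ι j =>
      (⟨st W X D f (y p.1 p.2), hmem (G.fr.st_AS (h1 p.1 p.2))⟩ : (cyc W).C X)) (by
      intro c hc
      funext q
      have h9 := hc (Pi.single q 1)
      rw [Fintype.linearCombination_apply_single, one_smul, Fintype.linearCombination_apply,
        map_sum, LinearMap.sum_apply, Finset.sum_eq_single q] at h9
      · rw [map_smul, LinearMap.smul_apply, Sys.F_apply, Module.End.one_apply, smul_eq_mul] at h9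
        change c q * bf W X D f (y q.1 q.2) (y q.1 q.2) = 0 at h9
        rw [h4] at h9
        rcases mul_eq_zero.1 h9 with h10 | h10
        · exact h10
        · exact absurd (by exact_mod_cast h10) (h3 q.1 q.2)
      · intro p _ hp
        rw [map_smul, LinearMap.smul_apply, Sys.F_apply, Module.End.one_apply]
        change c p • bf W X D f (y p.1 p.2) (y q.1 q.2) = 0
        rw [horth p q hp, smul_zero]
      · intro h0; exact absurd (Finset.mem_univ _) h0)
  rw [finrank_fintype_fun_eq_card] at e1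
  exact e1

lemma KA_eq (X : 𝒱.Obj) : KA W X = algSpan W X := by
  apply le_antisymm
  · rw [KA, Submodule.span_le]
    intro x hx
    have hx' : AS W X x := hx
    refine AS.ind (p := fun x => x ∈ algSpan W X) ?_ ?_ hx'
    · intro j x hx
      exact Submodule.subset_span (Set.mem_iUnion.2 ⟨j, hx⟩)
    · intro a b ha hb; exact Submodule.add_mem _ ha hb
  · rw [algSpan, Submodule.span_le]
    intro x hx
    obtain ⟨j, hj⟩ := Set.mem_iUnion.1 hx
    exact KA.of (AS.of hj)

/-- Nonnegativity and the coincidence of homological and numerical equivalence imply the standard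
conjecture of Hodge type. -/
theorem hodgeType_of (G : Gd W X D f) (hnn : HodgeNonneg W ⟨X, D⟩)
    (hNum : (cyc W).Num X = ⊥) : HodgeType W X D := by
  classical
  intro j hj z hz hprim hz0
  have hneg : ∀ n ∈ range (X.dim / 2 + 1), negNum W ⟨X, D⟩ n = 0 := by
    intro n hn
    rw [Finset.mem_range] at hn
    rw [negNum]
    have h1 : {r | HasFamily W X D n (-1) r} = {0} := by
      ext r
      rw [Set.mem_setOf_eq, Set.mem_singleton_iff]
      constructor
      · rintro ⟨w, hw, hpos, -⟩
        by_contra h0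
        have h1 := hpos ⟨0, Nat.pos_of_ne_zero h0⟩
        have h2 := hnn n _ (by change 2 * n ≤ X.dim; omega) (hw ⟨0, Nat.pos_of_ne_zero h0⟩)
        change 0 ≤ pairing ops X D n _ _ at h2
        linarith
      · rintro rfl
        exact ⟨Fin.elim0, fun i => i.elim0, fun i => i.elim0, fun i => i.elim0⟩
    change sSup {r | HasFamily W X D n (-1) r} = 0
    rw [h1, csSup_singleton]
  have hzA : AS W X (W.cl X z) := AS.of ⟨z, hz, rfl⟩
  obtain ⟨ι, _, y, s, h1, h2, h3, h4, h5, h6, h7, h8⟩ :=
    exists_fam2 G.fr (2 * j - X.dim : ℤ)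
  have hs : ∀ i, 0 < s i := by
    intro i
    have h9 : wsumN X.dim (negNum W ⟨X, D⟩) (2 * j - X.dim : ℤ) = 0 := by
      have := wsumN_le X.dim (negNum W ⟨X, D⟩) (2 * j - X.dim : ℤ)
      rw [Finset.sum_eq_zero hneg] at this
      omega
    rw [h9, Finset.card_eq_zero] at h8
    have h10 : i ∉ univ.filter (fun i => s i < 0) := by rw [h8]; exact Finset.notMem_empty _
    rw [Finset.mem_filter] at h10
    push Not at h10
    exact lt_of_le_of_ne (h10 (Finset.mem_univ _)) (h3 i).symm
  obtain ⟨c, hc⟩ := fam_span G _ h1 h2 h3 h4 h5 h6 hzA (by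
    rw [Fr.wt_gr (W.cl_mem hz)]
    congr 1
    push_cast
    ring)
  have hbf : ∀ v, AS W X v → bf W X D f (W.cl X z) v = ∑ i, (c i : W.K) * bf W X D f (y i) v := by
    intro v hv
    rw [bf_apply, hc _ (G.fr.st_AS hv)]
    rfl
  have hcy : ∀ i, bf W X D f (y i) (W.cl X z) = (c i * s i : ℚ) := by
    intro i
    rw [bf_AS_symm G hzA, hbf _ (h1 i), Finset.sum_eq_single i]
    · rw [h4, Rat.cast_mul]
    · intro l _ hl
      rw [h5 _ _ hl, mul_zero]
    · intro h0; exact absurd (Finset.mem_univ _) h0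
  have hzz : bf W X D f (W.cl X z) (W.cl X z) = ((∑ i, c i * c i * s i : ℚ) : W.K) := by
    rw [hbf _ hzA, Rat.cast_sum]
    apply Finset.sum_congr rfl
    intro i _
    rw [hcy]
    push_cast
    ring
  have hc0 : ∃ i, c i ≠ 0 := by
    by_contra h0
    push Not at h0
    apply hz0
    have h9 : W.cl X z ∈ (cyc W).Num X := by
      refine ⟨KA.of hzA, fun d hd => ?_⟩
      have hd' : d ∈ Submodule.span W.K {x | AS W X x} := hd
      clear hd
      induction hd' using Submodule.span_induction with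
      | mem v hv => rw [hc v hv]; exact Finset.sum_eq_zero fun i _ => by rw [h0 i]; simp
      | zero => rw [mul_zero, map_zero]
      | add a b _ _ ha hb => rw [mul_add, map_add, ha, hb, add_zero]
      | smul r a _ ha => rw [mul_smul_comm, map_smul, ha, smul_zero]
    rw [hNum] at h9
    exact (Submodule.mem_bot _).1 h9
  have hpos : 0 < ∑ i, c i * c i * s i := by
    obtain ⟨i, hi⟩ := hc0
    exact Finset.sum_pos' (fun l _ => mul_nonneg (mul_self_nonneg _) (hs l).le)
      ⟨i, Finset.mem_univ _, mul_pos (mul_self_pos.2 hi) (hs i)⟩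
  have h9 := G.fr.form_prim hj hz hprim
  rw [hzz] at h9
  have h10 : ∑ i, c i * c i * s i = (-1) ^ j * (((X.dim - 2 * j).factorial : ℚ)⁻¹ *
      X.V.degCycle (ops.mul z (divPow ops D (X.dim - 2 * j) z))) := by exact_mod_cast h9
  have h11 : (0 : ℚ) < (X.dim - 2 * j).factorial := by exact_mod_cast Nat.factorial_pos _
  have h12 : (-1 : ℚ) ^ j * X.V.degCycle (ops.mul z (divPow ops D (X.dim - 2 * j) z)) =
      (X.dim - 2 * j).factorial * ∑ i, c i * c i * s i := by
    rw [h10]
    field_simp
  rw [h12]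
  exact mul_pos h11 hpos

lemma two_positive_le (P : Polarized 𝒱) : 2 * (positive W P : ℤ) ≤
    positive W P + negative W P + (P.X.dim + 1) * excess W P := by
  have h1 : (positive W P : ℤ) ≤ negative W P + (P.X.dim + 1) * excess W P := by
    rw [positive, negative, excess, Finset.mul_sum]
    push_cast
    rw [← Finset.sum_add_distrib]
    apply Finset.sum_le_sum
    intro n hn
    rw [Finset.mem_range] at hn
    have h2 : (posNum W P n : ℤ) - negNum W P n ≤ |(posNum W P n : ℤ) - negNum W P n| :=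
      le_abs_self _
    have h3 : (0 : ℤ) ≤ |(posNum W P n : ℤ) - negNum W P n| := abs_nonneg _
    have h4 : ((P.X.dim - 2 * n : ℕ) : ℤ) ≤ P.X.dim := by omega
    have h5 : (0 : ℤ) ≤ ((P.X.dim - 2 * n : ℕ) : ℤ) := by positivity
    nlinarith [mul_le_mul_of_nonneg_right h4 h3, mul_nonneg h5 (sub_nonneg.2 h2)]
  linarith

end Pool.Agent.R910.Sgn
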