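import Pool.Agent.R910.Sgn.Full

/-!
# At most half of the algebraic classes are positive, or the standard conjecture of Hodge type holds
-/

open CategoryTheory AlgebraicGeometry Finset

universe u v

namespace Pool.Agent.R910.Sgn

open Module
open Pool.Agent.H914 Pool.Agent.H914.VarClass Pool.Agent.H914.VarClass.Obj
  Pool.Agent.H914.WeilCohomology Pool.Agent.H281R3.HT Pool.Agent.W552 Pool.Agent.W539.Ker
  Pool.Agent.Y133.Half

variable {k : Type u} [Field k] {𝒱 : VarClass k} {ops : CycleOps 𝒱}
  {W : WeilCohomology.{u, v} ops} {P Q : Polarized 𝒱}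

lemma exists_theta {κ : ℝ} (hκ : κ < 1) {q : ℕ} (hq : 0 < q) :
    ∃ θ : ℝ, 0 < θ ∧ θ < 1 ∧ κ < θ ^ q := by
  have hq' : (1 : ℝ) ≤ q := by exact_mod_cast hq
  set κ' := max κ 0 with hκ'
  have h1 : κ' < 1 := max_lt hκ one_pos
  have h2 : 0 ≤ κ' := le_max_right _ _
  have h3 : (1 - κ') / (2 * q) ≤ (1 - κ') / 2 := by
    apply div_le_div_of_nonneg_left (by linarith) (by norm_num)
    linarith
  have h4 : 0 < (1 - κ') / (2 * q) := div_pos (by linarith) (by linarith)
  refine ⟨1 - (1 - κ') / (2 * q), by linarith, by linarith, ?_⟩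
  have h5 := one_add_mul_le_pow (R := ℝ) (a := -((1 - κ') / (2 * q))) (by linarith) q
  have h6 : 1 + (q : ℝ) * (-((1 - κ') / (2 * q))) = 1 - (1 - κ') / 2 := by
    field_simp
    ring
  rw [h6, ← sub_eq_add_neg] at h5
  have h7 : κ ≤ κ' := le_max_left _ _
  linarith

lemma total_le (P : Polarized 𝒱) : total W P ≤ positive W P + negative W P := by
  rw [total, positive, negative, ← Finset.sum_add_distrib]
  apply Finset.sum_le_sum
  intro n _
  rw [← mul_add]
  exact Nat.le_mul_of_pos_left _ (Nat.succ_pos _)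

/-- **The second form of the law.** -/
theorem main2 (P : Polarized 𝒱) (hP : HasGq W P) (hdeg : PosDeg W P.X P.D) :
    (∀ m, HodgeType W (power ops P m).X (power ops P m).D) ∨ AtMostHalf (ops := ops) W P := by
  have halg : ∀ m, algDim W (power ops P m) = finrank W.K ((cyc W).C (pw P.X m)) := by
    intro m
    rw [algDim, ← KA_eq, power_X]
    rfl
  have hale : ∀ m, (cyc W).a (pw P.X m) ≤ algDim W (power ops P m) := by
    intro m
    rw [halg]
    exact LinearMap.finrank_range_le _
  have hpa : ∀ m, positive W (power ops P m) + negative W (power ops P m) ≤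
      (cyc W).a (pw P.X m) := by
    intro m
    obtain ⟨f, G⟩ := hP.power (ops := ops) m
    rw [← power_X (ops := ops)]
    exact le_a_of G.gd
  by_cases hN : ∀ n, (cyc W).Num (pw P.X n) = ⊥
  swap
  · right
    intro ε hε
    rcases (cyc W).num_or (cyc W) (fun _ => le_rfl) P.X with h | h
    · exact absurd h hN
    obtain ⟨n₀, hn₀⟩ := h 2
    refine ⟨n₀, fun m hm => ?_⟩
    have h1 := hn₀ m hm
    rw [← halg] at h1
    have h2 := hpa m
    have h3 : 2 * positive W (power ops P m) ≤ algDim W (power ops P m) := by omega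
    have h4 : 2 * (positive W (power ops P m) : ℝ) ≤ algDim W (power ops P m) := by
      exact_mod_cast h3
    have h5 : (0 : ℝ) ≤ algDim W (power ops P m) := Nat.cast_nonneg _
    nlinarith [mul_nonneg hε.le h5]
  by_cases hh : ∀ r, HodgeNonneg W (power ops P r)
  · left
    intro m
    obtain ⟨f, G⟩ := hP.power (ops := ops) m
    refine hodgeType_of G.gd (hh m) ?_
    rw [power_X]
    exact hN m
  right
  push Not at hh
  obtain ⟨r, hr⟩ := hh
  intro ε hε
  -- the total Betti number is positive
  have hb : 0 < finrank W.K (W.H P.X) := by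
    obtain ⟨q, hq, hq'⟩ := hdeg
    have : Nontrivial (W.H P.X) := by
      refine ⟨((LinearMap.mulLeft W.K (W.cl P.X P.D)) ^ P.X.dim) 1, 0, fun h0 => ?_⟩
      rw [h0, map_zero] at hq'
      have : q = 0 := by exact_mod_cast hq'.symm
      exact hq.ne' this
    exact finrank_pos
  have hb' : (0 : ℝ) < (finrank W.K (W.H P.X) : ℝ) ^ (r + 1) := by positivity
  obtain ⟨θ, hθ0, hθ1, hθ⟩ := exists_theta
    (κ := 1 - 2 / (finrank W.K (W.H P.X) : ℝ) ^ (r + 1)) (by
      have : 0 < 2 / (finrank W.K (W.H P.X) : ℝ) ^ (r + 1) := by positivity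
      linarith) (Nat.succ_pos r)
  obtain ⟨C, hC⟩ := ((main P hP hdeg r).resolve_left hr) P hP θ hθ0 hθ
  -- the error term tends to zero
  set A : ℝ := ((P.X.dim : ℝ) + 1) * |C| / θ ^ 2 with hA
  have hlim := (tendsto_pow_const_mul_const_pow_of_abs_lt_one 1 (r := θ) (by
    rwa [abs_of_pos hθ0])).const_mul A
  rw [mul_zero] at hlim
  have hε2 : 0 < 2 * ε := by linarith
  obtain ⟨m₀, hm₀⟩ := Filter.eventually_atTop.1 (hlim.eventually (gt_mem_nhds hε2))
  refine ⟨m₀ + 1, fun m hm => ?_⟩
  obtain ⟨l, rfl⟩ : ∃ l, m = l + 1 := ⟨m - 1, by omega⟩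
  have h1 : (excess W (power ops P (l + 1)) : ℝ) ≤ C * θ ^ l * total W (power ops P (l + 1)) :=
    hC l
  have h2 : 2 * (positive W (power ops P (l + 1)) : ℝ) ≤ positive W (power ops P (l + 1)) +
      negative W (power ops P (l + 1)) + ((power ops P (l + 1)).X.dim + 1) *
        excess W (power ops P (l + 1)) := by
    exact_mod_cast two_positive_le (W := W) (power ops P (l + 1))
  have h3 : (positive W (power ops P (l + 1)) : ℝ) + negative W (power ops P (l + 1)) ≤
      algDim W (power ops P (l + 1)) := by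
    exact_mod_cast (hpa (l + 1)).trans (hale (l + 1))
  have h4 : (total W (power ops P (l + 1)) : ℝ) ≤ algDim W (power ops P (l + 1)) := by
    exact_mod_cast (total_le _).trans ((hpa (l + 1)).trans (hale (l + 1)))
  have h5 : (0 : ℝ) ≤ total W (power ops P (l + 1)) := Nat.cast_nonneg _
  have h6 : ((power ops P (l + 1)).X.dim : ℝ) + 1 ≤ ((P.X.dim : ℝ) + 1) * ((l + 2 : ℕ) : ℝ) := by
    rw [dim_power]
    push_cast
    have : (0 : ℝ) ≤ l := Nat.cast_nonneg _
    nlinarith
  have h7 := hm₀ (l + 2) (by omega)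
  rw [pow_one] at h7
  have h8 : (((power ops P (l + 1)).X.dim : ℝ) + 1) * excess W (power ops P (l + 1)) ≤
      2 * ε * algDim W (power ops P (l + 1)) := by
    have e1 : (0 : ℝ) ≤ ((power ops P (l + 1)).X.dim : ℝ) + 1 := by positivity
    calc (((power ops P (l + 1)).X.dim : ℝ) + 1) * excess W (power ops P (l + 1))
        ≤ (((power ops P (l + 1)).X.dim : ℝ) + 1) *
          (|C| * θ ^ l * total W (power ops P (l + 1))) := by
          apply mul_le_mul_of_nonneg_left _ e1
          refine h1.trans ?_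
          apply mul_le_mul_of_nonneg_right _ h5
          exact mul_le_mul_of_nonneg_right (le_abs_self C) (by positivity)
      _ ≤ (((P.X.dim : ℝ) + 1) * ((l + 2 : ℕ) : ℝ)) *
          (|C| * θ ^ l * total W (power ops P (l + 1))) := by
          apply mul_le_mul_of_nonneg_right h6 (by positivity)
      _ = (A * (((l + 2 : ℕ) : ℝ) * θ ^ (l + 2))) * total W (power ops P (l + 1)) := by
          rw [hA, pow_add]
          field_simp
      _ ≤ 2 * ε * total W (power ops P (l + 1)) := mul_le_mul_of_nonneg_right h7.le h5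
      _ ≤ 2 * ε * algDim W (power ops P (l + 1)) := by
          apply mul_le_mul_of_nonneg_left h4 (by linarith)
  linarith

end Pool.Agent.R910.Sgn
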