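import Mathlib

/-!
# Rational matrices of small rank
-/

open Finset Module

namespace Pool.Agent.R910.Sgn

/-- The rational rank of a matrix is at most the rank over an extension. -/
lemma rat_rank {K : Type*} [Field K] [CharZero K] {ι κ : Type*} [Fintype ι] [Fintype κ]
    (q : ι → κ → ℚ) (V : Submodule K (κ → K)) (hV : ∀ i, (fun j => (q i j : K)) ∈ V) :
    finrank ℚ (Submodule.span ℚ (Set.range q)) ≤ finrank K V := by
  classical
  obtain ⟨b, hb, hspan, hli⟩ := exists_linearIndependent ℚ (Set.range q)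
  have hbf : b.Finite := (Set.finite_range q).subset hb
  have : Fintype b := hbf.fintype
  rw [← hspan]
  have h1 : finrank ℚ (Submodule.span ℚ b) = Fintype.card b := by
    have := finrank_span_eq_card hli
    rwa [Subtype.range_coe] at this
  rw [h1]
  have h2 : LinearIndependent K (fun i : b => algebraMap ℚ K ∘ (i : κ → ℚ)) :=
    linearIndependent_algebraMap_comp_iff.2 hli
  rw [← finrank_span_eq_card h2]
  apply Submodule.finrank_mono
  rw [Submodule.span_le]
  rintro _ ⟨⟨v, hv⟩, rfl⟩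
  obtain ⟨i, rfl⟩ := hb hv
  have e : (fun j => (q i j : K)) = algebraMap ℚ K ∘ q i := by
    funext j
    exact (eq_ratCast (algebraMap ℚ K) (q i j)).symm
  have h3 := hV i
  rw [e] at h3
  exact h3

/-- A common rational kernel vector of two matrices. -/
lemma exists_kernel {ι κ : Type*} [Fintype ι] [Fintype κ] {r : ℕ} (t : ι → κ → ℚ)
    (q : ι → ι → ℚ) (hr : finrank ℚ (Submodule.span ℚ (Set.range q)) ≤ r)
    (h : Fintype.card κ + r < Fintype.card ι) : ∃ c : ι → ℚ, c ≠ 0 ∧
      (∀ j, ∑ i, c i * t i j = 0) ∧ (∀ j, ∑ i, c i * q i j = 0) := by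
  classical
  let Φ₁ : (ι → ℚ) →ₗ[ℚ] (κ → ℚ) := Fintype.linearCombination ℚ t
  let Φ₂ : (ι → ℚ) →ₗ[ℚ] Submodule.span ℚ (Set.range q) :=
    (Fintype.linearCombination ℚ q).codRestrict _ (fun c => by
      rw [Fintype.linearCombination_apply]
      exact Submodule.sum_mem _ fun i _ => Submodule.smul_mem _ _ (Submodule.subset_span ⟨i, rfl⟩))
  let Φ := Φ₁.prod Φ₂
  have hlt : finrank ℚ ((κ → ℚ) × Submodule.span ℚ (Set.range q)) < finrank ℚ (ι → ℚ) := by
    rw [finrank_prod, finrank_fintype_fun_eq_card, finrank_fintype_fun_eq_card]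
    omega
  have h1 : LinearMap.ker Φ ≠ ⊥ := LinearMap.ker_ne_bot_of_finrank_lt hlt
  obtain ⟨c, hc, hc0⟩ := Submodule.exists_mem_ne_zero_of_ne_bot h1
  have h2 : Φ₁ c = 0 := congrArg Prod.fst (LinearMap.mem_ker.1 hc)
  have h3 : Φ₂ c = 0 := congrArg Prod.snd (LinearMap.mem_ker.1 hc)
  refine ⟨c, hc0, fun j => ?_, fun j => ?_⟩
  · have := congrFun h2 j
    simpa [Φ₁, Fintype.linearCombination_apply] using this
  · have := congrFun (congrArg Subtype.val h3) j
    simpa [Φ₂, Fintype.linearCombination_apply] using this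

end Pool.Agent.R910.Sgn
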