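import Pool.Agent.R910.Sgn.Upper

/-!
# The lower bound for the total number of primitive classes
-/

open CategoryTheory AlgebraicGeometry Finset

universe u v

namespace Pool.Agent.R910.Sgn

open Module
open Pool.Agent.H914 Pool.Agent.H914.VarClass Pool.Agent.H914.VarClass.Obj
  Pool.Agent.H914.WeilCohomology Pool.Agent.H281R3.HT Pool.Agent.W552 Pool.Agent.W539.Ker
  Pool.Agent.Y133.Half

/-- The trace form of a semisimple algebra of operators is nondegenerate. -/
lemma trace_nondeg {K : Type*} [Field K] [CharZero K] {M : Type*} [AddCommGroup M] [Module K M]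
    [FiniteDimensional K M] (A : Subalgebra K (Module.End K M)) [IsSemisimpleRing A]
    (x : A) (h : ∀ y : A, LinearMap.trace K M ((x : Module.End K M) * (y : Module.End K M)) = 0) :
    x = 0 := by
  let I : Ideal A :=
    { carrier := {x | ∀ y : A, LinearMap.trace K M ((x : Module.End K M) * (y : Module.End K M)) = 0}
      add_mem' := fun {a b} ha hb y => by
        rw [Subalgebra.coe_add, add_mul, map_add, ha y, hb y, add_zero]
      zero_mem' := fun y => by rw [Subalgebra.coe_zero, zero_mul, map_zero]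
      smul_mem' := fun c a ha y => by
        have h1 := ha (y * c)
        rw [Subalgebra.coe_mul] at h1
        rw [smul_eq_mul, Subalgebra.coe_mul, mul_assoc, LinearMap.trace_mul_comm, mul_assoc]
        exact h1 }
  obtain ⟨e, he, heI⟩ := IsSemisimpleRing.ideal_eq_span_idempotent I
  have h1 : e ∈ I := by rw [heI]; exact Ideal.subset_span rfl
  have h2 := h1 1
  rw [Subalgebra.coe_one, mul_one] at h2
  have h3 : (e : Module.End K M) ∘ₗ (e : Module.End K M) = e := congrArg Subtype.val he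
  rw [Y133.Half.trace_idem h3] at h2
  have h4 : finrank K (LinearMap.range (e : Module.End K M)) = 0 := by exact_mod_cast h2
  have h5 : e = 0 := by
    apply Subtype.ext
    exact LinearMap.range_eq_bot.1 (Submodule.finrank_eq_zero.1 h4)
  have h6 : x ∈ I := h
  rw [heI, h5, Ideal.mem_span_singleton'] at h6
  obtain ⟨a, ha⟩ := h6
  rw [← ha, mul_zero]

lemma rk_ge {K A B A' : Type*} [Field K] [AddCommGroup A] [Module K A] [AddCommGroup B]
    [Module K B] [AddCommGroup A'] [Module K A'] [FiniteDimensional K A] [FiniteDimensional K B]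
    [FiniteDimensional K A'] (β : A →ₗ[K] B →ₗ[K] K) (f : A' →ₗ[K] A) (g : A' →ₗ[K] B)
    (h : ∀ x, (∀ y, β (f x) (g y) = 0) → x = 0) : finrank K A' ≤ rk β := by
  refine le_trans ?_ (rk_comp_le β f g)
  have h2 : LinearMap.ker (β.compl₁₂ f g) = ⊥ := by
    rw [LinearMap.ker_eq_bot']
    intro x hx
    exact h x fun y => LinearMap.congr_fun hx y
  rw [rk, LinearMap.finrank_range_of_inj (LinearMap.ker_eq_bot.1 h2)]

variable {k : Type u} [Field k] {𝒱 : VarClass k} {ops : CycleOps 𝒱}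
  {W : WeilCohomology.{u, v} ops} {X Y Z : 𝒱.Obj} {D : X.Cycles} {f : Module.End W.K (W.H X)}

lemma aop_op {u : W.H X →ₗ[W.K] W.H Y} (h : AOp W X Y u) : u ∈ (cyc W).Op X Y := by
  obtain ⟨c, hc, rfl⟩ := h
  exact Sys.Op.corr (KA.of hc)

set_option maxHeartbeats 400000 in
/-- A nondegenerate trace form gives a lower bound for the rank of the intersection form. -/
lemma le_rk_BO (S : Sys W) (M : 𝒱.Obj) (A : Submodule W.K (W.H M →ₗ[W.K] W.H M))
    (hA : A ≤ S.Op M M) (hpar : H914.par (W.isInternal M) ∈ S.Op M M)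
    (hnd : ∀ x ∈ A, (∀ y ∈ A, LinearMap.trace W.K (W.H M) (x ∘ₗ y) = 0) → x = 0) :
    finrank W.K A ≤ S.a (M.prod M) := by
  have h1 : rk (S.F (M.prod M) 1) = rk (A := S.Op M M) (B := S.Op M M) (S.BO M M 1 1) := by
    have ev1 : Ev W (1 : Module.End W.K (W.H M)) := Ev.id
    rw [S.rk_BO (M := M) (N := M) ev1 ev1 Adj.one, extOp_one]
  rw [Sys.a, h1]
  have f₂ : ∃ f₂ : A →ₗ[W.K] S.Op M M, ∀ x, (f₂ x : W.H M →ₗ[W.K] W.H M) =
      H914.par (W.isInternal M) ∘ₗ (x : W.H M →ₗ[W.K] W.H M) :=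
    ⟨LinearMap.codRestrict (S.Op M M)
      ((LinearMap.llcomp W.K (W.H M) (W.H M) (W.H M) (H914.par (W.isInternal M))) ∘ₗ A.subtype)
      (fun x => Sys.Op.comp hpar (hA x.2)), fun x => rfl⟩
  obtain ⟨f₂, hf₂⟩ := f₂
  have e1 := rk_ge (K := W.K) (A := S.Op M M) (B := S.Op M M) (A' := A) (S.BO M M 1 1)
    (Submodule.inclusion hA) f₂
  apply e1
  clear e1 h1
  intro x hx
  apply Subtype.ext
  apply hnd x.1 x.2
  intro y hy
  have h3 := hx ⟨y, hy⟩
  rw [Sys.BO_apply, hf₂] at h3
  have h4 : H914.par (W.isInternal M) ∘ₗ (x : W.H M →ₗ[W.K] W.H M) =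
    (x : W.H M →ₗ[W.K] W.H M) ∘ₗ H914.par (W.isInternal M) :=
      (Sys.Op.ev (hA x.2)).par_comm
  have h5 : H914.par (W.isInternal M) ∘ₗ H914.par (W.isInternal M) = LinearMap.id :=
    H914.par_mul_par _
  have h6 : H914.par (W.isInternal M) ∘ₗ (1 : Module.End W.K (W.H M)) ∘ₗ
      (Submodule.inclusion hA x : W.H M →ₗ[W.K] W.H M) ∘ₗ (1 : Module.End W.K (W.H M)) ∘ₗ
        (H914.par (W.isInternal M) ∘ₗ y) = (x : W.H M →ₗ[W.K] W.H M) ∘ₗ y := by
    change H914.par (W.isInternal M) ∘ₗ (x : W.H M →ₗ[W.K] W.H M) ∘ₗ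
        (H914.par (W.isInternal M) ∘ₗ y) = _
    rw [← LinearMap.comp_assoc, ← LinearMap.comp_assoc, h4,
      LinearMap.comp_assoc (H914.par (W.isInternal M)), h5, LinearMap.comp_id]
  rw [← h6]
  exact h3

/-- **Lower bound for the number of numerical classes on an even power.** -/
theorem le_a (X : 𝒱.Obj) (n : ℕ) (hp : AOp W (pw X n) (pw X n) (H914.par (W.isInternal _))) :
    finrank W.K (W.H X) ^ (2 * (n + 1)) ≤
      (cyc W).a ((pw X n).prod (pw X n)) * (n + 2) ^ (finrank W.K (W.H X) ^ 2) := by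
  classical
  obtain ⟨e, he⟩ := exists_hbasis W X
  have h := span_perm (wb e n) (rho W X n) (tau_wb e he n)
  rw [finrank_pw, ← pow_mul, Fintype.card_fin] at h
  have h3 := le_rk_BO (cyc W) (pw X n) (Subalgebra.toSubmodule (repAlg (rho W X n)))
    (fun x hx => (cyc W).span_rho_le X n (repAlg_le (rho W X n) hx)) (aop_op hp)
    (fun x hx hxy => by
      have h0 : (⟨x, hx⟩ : repAlg (rho W X n)) = 0 :=
        trace_nondeg (repAlg (rho W X n)) _ fun y => hxy y.1 y.2
      exact congrArg Subtype.val h0)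
  have h4 : finrank W.K (Submodule.span W.K (Set.range (rho W X n))) ≤
      finrank W.K (Subalgebra.toSubmodule (repAlg (rho W X n))) := by
    apply Submodule.finrank_mono
    rw [Submodule.span_le]
    rintro _ ⟨σ, rfl⟩
    exact rep_mem _ σ
  calc finrank W.K (W.H X) ^ (2 * (n + 1)) = finrank W.K (W.H X) ^ ((n + 1) * 2) := by
        rw [mul_comm]
    _ ≤ _ := h
    _ ≤ _ := Nat.mul_le_mul_right _ (h4.trans h3)

end Pool.Agent.R910.Sgn
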