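import Pool.Agent.R910.Sgn.Neg
import Pool.Agent.R910.Sgn.Anal

/-!
# The zero-half law for the signs of the primitive algebraic classes
-/

open CategoryTheory AlgebraicGeometry Finset

universe u v

namespace Pool.Agent.R910.Sgn

open Module
open Pool.Agent.H914 Pool.Agent.H914.VarClass Pool.Agent.H914.VarClass.Obj
  Pool.Agent.H914.WeilCohomology Pool.Agent.H281R3.HT Pool.Agent.W552 Pool.Agent.W539.Ker
  Pool.Agent.Y133.Half

variable {k : Type u} [Field k] {𝒱 : VarClass k} {ops : CycleOps 𝒱}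
  {W : WeilCohomology.{u, v} ops} {X Y Z : 𝒱.Obj} {D : X.Cycles} {f : Module.End W.K (W.H X)}
  {P Q : Polarized 𝒱}

lemma power_X (P : Polarized 𝒱) (m : ℕ) : (power ops P m).X = pw P.X m := by
  induction m with
  | zero => rfl
  | succ m ih =>
    change (power ops P m).X.prod P.X = (pw P.X m).prod P.X
    rw [ih]

lemma pw_gq (hX : ∃ D f, Gq W X D f) (n : ℕ) : ∃ D f, Gq W (pw X n) D f := by
  induction n with
  | zero => exact hX
  | succ n ih =>
    obtain ⟨D, f, G⟩ := hX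
    obtain ⟨E, g, G'⟩ := ih
    exact ⟨_, _, G'.prod G⟩

lemma a_pos (hX : ∃ D f, Gq W X D f) (h1 : (1 : W.H X) ≠ 0) : 1 ≤ (cyc W).a X := by
  obtain ⟨D, f, G⟩ := hX
  obtain ⟨η, hη, h0⟩ := exists_eta G.gd h1
  have e1 := rk_ge (K := W.K) (A := (cyc W).C X) (B := (cyc W).C X) (A' := W.K)
    ((cyc W).F X 1) (LinearMap.toSpanSingleton W.K _ ⟨1, (cyc W).one X⟩)
    (LinearMap.toSpanSingleton W.K _ ⟨η, hη⟩) (by
      intro x hx
      have h2 := hx 1
      rw [LinearMap.toSpanSingleton_apply, LinearMap.toSpanSingleton_apply, one_smul, map_smul,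
        LinearMap.smul_apply, Sys.F_apply, Module.End.one_apply, one_mul, smul_eq_mul] at h2
      exact (mul_eq_zero.1 h2).resolve_right h0)
  rw [finrank_self] at e1
  exact e1

lemma lower_pw (hX : ∃ D f, Gq W X D f) (h1 : (1 : W.H X) ≠ 0) (m : ℕ) :
    finrank W.K (W.H X) ^ m ≤ (cyc W).a (pw X m) * (m + 2) ^ (finrank W.K (W.H X) ^ 2) := by
  have hb : 1 ≤ finrank W.K (W.H X) := by
    have : Nontrivial (W.H X) := ⟨⟨1, 0, h1⟩⟩
    exact finrank_pos
  have hodd : ∀ n, finrank W.K (W.H X) ^ (2 * (n + 1)) ≤ (cyc W).a (pw X (2 * n + 1)) *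
      (n + 2) ^ (finrank W.K (W.H X) ^ 2) := by
    intro n
    obtain ⟨E, g, G⟩ := pw_gq hX n
    have e1 := le_a X n G.gd.pa
    have e2 := (cyc W).a_iso (pwAdd X n n)
    rw [e2, show n + n + 1 = 2 * n + 1 by ring] at e1
    exact e1
  have hpow : ∀ n l : ℕ, n ≤ l → (n + 2) ^ (finrank W.K (W.H X) ^ 2) ≤
      (l + 2) ^ (finrank W.K (W.H X) ^ 2) := fun n l h => Nat.pow_le_pow_left (by omega) _
  rcases m with _ | m
  · rw [pow_zero]
    exact Nat.mul_pos (a_pos hX h1) (by positivity)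
  · rcases Nat.even_or_odd' m with ⟨n, rfl | rfl⟩
    · calc finrank W.K (W.H X) ^ (2 * n + 1) ≤ finrank W.K (W.H X) ^ (2 * (n + 1)) :=
          Nat.pow_le_pow_right hb (by omega)
        _ ≤ _ := hodd n
        _ ≤ _ := Nat.mul_le_mul_left _ (hpow _ _ (by omega))
    · obtain ⟨D, f, G⟩ := hX
      obtain ⟨η, hη, h0⟩ := exists_eta G.gd h1
      have e3 : (cyc W).a (pw X (2 * n + 1)) ≤ (cyc W).a ((pw X (2 * n + 1)).prod X) :=
        a_mono (cyc W) hη h0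
      calc finrank W.K (W.H X) ^ (2 * n + 1 + 1) = finrank W.K (W.H X) ^ (2 * (n + 1)) := by
            congr 1
        _ ≤ _ := hodd n
        _ ≤ _ := Nat.mul_le_mul e3 (hpow _ _ (by omega))

/-- **The lower bound for the total number of primitive classes.** -/
theorem lower (hP : HasGq W P) (hQ : HasGq W Q) (h1 : (1 : W.H P.X) ≠ 0)
    (h1' : (1 : W.H Q.X) ≠ 0) (m : ℕ) : finrank W.K (W.H P.X) ^ m ≤
      ((m + 1) * P.X.dim + Q.X.dim + 1) * total W ((power ops P m).prod ops Q) *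
        (m + 2) ^ (finrank W.K (W.H P.X) ^ 2) := by
  obtain ⟨f, G⟩ := hP
  obtain ⟨g, G'⟩ := hQ
  refine (lower_pw ⟨_, f, G⟩ h1 m).trans (Nat.mul_le_mul_right _ ?_)
  obtain ⟨η, hη, h0⟩ := exists_eta G'.gd h1'
  rw [← power_X (ops := ops)]
  refine (a_mono (cyc W) hη h0).trans ?_
  obtain ⟨h, G''⟩ := (HasGq.power (ops := ops) ⟨f, G⟩ m).prod (ops := ops) ⟨g, G'⟩
  have e1 := a_le_total G''.gd
  have e2 : ((power ops P m).prod ops Q).X.dim = (m + 1) * P.X.dim + Q.X.dim := by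
    change ((power ops P m).X.prod Q.X).dim = _
    rw [dim_prod, dim_power]
  rw [e2] at e1
  exact e1

/-- **The zero-half law.** -/
theorem main (P : Polarized 𝒱) (hP : HasGq W P) (hdeg : PosDeg W P.X P.D) (m₀ : ℕ) :
    HodgeNonneg W (power ops P m₀) ∨
    ∀ Q : Polarized 𝒱, HasGq W Q → ∀ θ : ℝ, 0 < θ →
      1 - 2 / (finrank W.K (W.H P.X) : ℝ) ^ (m₀ + 1) < θ ^ (m₀ + 1) →
        Equidistributed W P Q θ := by
  by_cases hall : HodgeNonneg W (power ops P m₀)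
  · exact Or.inl hall
  right
  rw [HodgeNonneg] at hall
  push Not at hall
  obtain ⟨n, z, hn, hz, hneg⟩ := hall
  obtain ⟨f, G⟩ := hP.power (ops := ops) m₀
  obtain ⟨x, e, a, b, N⟩ := exists_np G (posDeg_power hP hdeg m₀) hn hz hneg
  set β := finrank W.K (W.H P.X) with hβ
  have hb : 2 ≤ β ^ (m₀ + 1) := by
    have h2 := N.qj_rank
    rw [finrank_power, ← hβ] at h2
    omega
  have hbq : (2 : ℝ) ≤ (β : ℝ) ^ (m₀ + 1) := by exact_mod_cast hb
  intro Q hQ θ hθ0 hθ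
  have hκ : ((β : ℝ) ^ (m₀ + 1) - 2) / (β : ℝ) ^ (m₀ + 1) < θ ^ (m₀ + 1) := by
    rw [sub_div, div_self (by linarith)]
    exact hθ
  obtain ⟨C, hC0, hC⟩ := poly_exp (q := m₀ + 1) (Nat.succ_pos _)
    (κ := ((β : ℝ) ^ (m₀ + 1) - 2) / (β : ℝ) ^ (m₀ + 1))
    (div_nonneg (by linarith) (by linarith)) hθ0 hκ (β ^ 2 + 2)
  refine ⟨(((P.X.dim + Q.X.dim + 2) ^ 2 * finrank W.K (W.H Q.X) * β : ℕ) : ℝ) * C, fun m => ?_⟩
  have h1 := upper hP hQ N (m % (m₀ + 1)) (m / (m₀ + 1))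
  rw [Nat.div_add_mod, ← hβ] at h1
  have h1' : (excess W ((power ops P m).prod ops Q) : ℝ) ≤
      (((m + 1) * P.X.dim + Q.X.dim + 2 : ℕ) : ℝ) *
      (((β ^ (m₀ + 1) - 2) ^ (m / (m₀ + 1)) *
        (β ^ (m % (m₀ + 1) + 1) * finrank W.K (W.H Q.X)) : ℕ) : ℝ) := by
    exact_mod_cast h1
  by_cases hQ1 : (1 : W.H Q.X) = 0
  · have h2 : finrank W.K (W.H Q.X) = 0 := by
      have : Subsingleton (W.H Q.X) := ⟨fun x y => by
        rw [← mul_one x, ← mul_one y, hQ1, mul_zero, mul_zero]⟩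
      exact finrank_zero_of_subsingleton
    rw [h2] at h1' ⊢
    simpa using h1'
  have hP1 : (1 : W.H P.X) ≠ 0 := by
    intro h0
    have h2 : β = 0 := by
      have : Subsingleton (W.H P.X) := ⟨fun x y => by
        rw [← mul_one x, ← mul_one y, h0, mul_zero, mul_zero]⟩
      exact finrank_zero_of_subsingleton
    rw [h2, zero_pow (Nat.succ_ne_zero _)] at hb
    omega
  have h2 := lower (ops := ops) hP hQ hP1 hQ1 m
  have h2' : ((β ^ m : ℕ) : ℝ) ≤ (((m + 1) * P.X.dim + Q.X.dim + 1 : ℕ) : ℝ) *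
      (total W ((power ops P m).prod ops Q) : ℝ) * (((m + 2) ^ (β ^ 2) : ℕ) : ℝ) := by
    exact_mod_cast h2
  exact final_est (Nat.succ_pos _) hb hθ0 hC m (Nat.cast_nonneg _) h1' h2'

end Pool.Agent.R910.Sgn
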