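import Pool.Agent.R910.Sgn.Total

/-!
# A negative primitive class and a positive class of the same degree
-/

open CategoryTheory AlgebraicGeometry Finset

universe u v

namespace Pool.Agent.R910.Sgn

open Module
open Pool.Agent.H914 Pool.Agent.H914.VarClass Pool.Agent.H914.VarClass.Obj
  Pool.Agent.H914.WeilCohomology Pool.Agent.H281R3.HT Pool.Agent.W552 Pool.Agent.W539.Ker
  Pool.Agent.Y133.Half

variable {k : Type u} [Field k] {𝒱 : VarClass k} {ops : CycleOps 𝒱}
  {W : WeilCohomology.{u, v} ops} {X Y Z : 𝒱.Obj} {D : X.Cycles} {f : Module.End W.K (W.H X)}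
  {P Q : Polarized 𝒱}

/-- The degree of the polarization is positive. -/
def PosDeg (W : WeilCohomology.{u, v} ops) (X : 𝒱.Obj) (D : X.Cycles) : Prop :=
  ∃ q : ℚ, 0 < q ∧ W.tr X (((LinearMap.mulLeft W.K (W.cl X D)) ^ X.dim) 1) = (q : W.K)

lemma L_top (X : 𝒱.Obj) (D : X.Cycles) (hD : X.IsCyc 1 D) :
    ((LinearMap.mulLeft W.K (W.cl X D)) ^ (X.dim + 1)) (1 : W.H X) = 0 := by
  have h1 := pow_L_mem (mulLeft_isHom hD) (W.one_mem X) (X.dim + 1)
  rw [W.gr_eq_bot X _ (by omega)] at h1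
  exact (Submodule.mem_bot _).1 h1

lemma bf_one (F : Fr W X D f) {j : ℕ} (hj : j ≤ X.dim) (u : W.H X) :
    bf W X D f u (((LinearMap.mulLeft W.K (W.cl X D)) ^ j) 1) =
      ((j.factorial * ((X.dim - j).factorial : ℚ)⁻¹ : ℚ) : W.K) *
        W.tr X (u * ((LinearMap.mulLeft W.K (W.cl X D)) ^ (X.dim - j)) 1) := by
  have h1 := bf_L_pow F (n := 0) (by omega) (W.one_mem X) (L_top X D F.hD)
    (j := j) (by omega) u
  rw [mul_zero, Nat.sub_zero, pow_zero, one_mul] at h1
  exact h1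

lemma posDeg_iff (F : Fr W X D f) : PosDeg W X D ↔ ∃ q : ℚ, 0 < q ∧ bf W X D f 1 1 = (q : W.K) := by
  have h1 := bf_one F (j := 0) (Nat.zero_le _) 1
  rw [pow_zero, Module.End.one_apply, one_mul, Nat.sub_zero, Nat.factorial_zero, Nat.cast_one,
    one_mul] at h1
  have h2 : (0 : ℚ) < X.dim.factorial := by exact_mod_cast Nat.factorial_pos _
  constructor
  · rintro ⟨q, hq, h⟩
    refine ⟨(X.dim.factorial : ℚ)⁻¹ * q, by positivity, ?_⟩
    rw [h1, h, Rat.cast_mul]
  · rintro ⟨q, hq, h⟩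
    refine ⟨X.dim.factorial * q, by positivity, ?_⟩
    rw [h] at h1
    rw [Rat.cast_mul, h1, ← mul_assoc, ← Rat.cast_mul, mul_inv_cancel₀ h2.ne', Rat.cast_one,
      one_mul]

lemma posDeg_prod {E : Y.Cycles} {g : Module.End W.K (W.H Y)} (F : Fr W X D f)
    (F' : Fr W Y E g) (h : PosDeg W X D) (h' : PosDeg W Y E) :
    PosDeg W (X.prod Y) (ops.pull (fst X Y) D + ops.pull (snd X Y) E) := by
  rw [posDeg_iff F] at h
  rw [posDeg_iff F'] at h'
  rw [posDeg_iff (F.prod F')]
  obtain ⟨q, hq, h1⟩ := h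
  obtain ⟨q', hq', h1'⟩ := h'
  refine ⟨q * q', mul_pos hq hq', ?_⟩
  have h2 := F.bf_ext F' 1 1 1 1
  have h3 : ext W (1 : W.H X) (1 : W.H Y) = 1 := by
    change W.map (fst X Y) 1 * W.map (snd X Y) 1 = 1
    rw [map_one, map_one, one_mul]
  rw [h3] at h2
  rw [h2, h1, h1', Rat.cast_mul]

lemma posDeg_power (hP : HasGq W P) (h : PosDeg W P.X P.D) (m : ℕ) :
    PosDeg W (power ops P m).X (power ops P m).D := by
  induction m with
  | zero => exact h
  | succ m ih =>
    obtain ⟨f, G⟩ := hP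
    obtain ⟨g, G'⟩ := HasGq.power (ops := ops) ⟨f, G⟩ m
    exact posDeg_prod G'.fr G.fr ih h

lemma posDeg_of (hD : X.IsCyc 1 D) (h : 0 < X.V.degCycle (divPow ops D X.dim X.V.fundCycle)) :
    PosDeg W X D := by
  refine ⟨_, h, ?_⟩
  have h0 : X.IsCyc 0 X.V.fundCycle := X.V.fundCycle_mem
  have h1 := divPow_mem (ops := ops) hD X.dim h0
  rw [zero_add] at h1
  rw [← W.tr_cl h1, cl_divPow, W.cl_fund]

/-- **A negative primitive class gives a negative and a positive class of the same degree,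
orthogonal to each other.** -/
theorem exists_np (G : Gq W X D f) (h1 : PosDeg W X D) {n : ℕ} (hn : 2 * n ≤ X.dim)
    {z : X.Cycles} (hz : Primitive W X D n z) (hneg : pairing ops X D n z z < 0) :
    ∃ x e a b, NP W X D f x e a b := by
  set L := LinearMap.mulLeft W.K (W.cl X D) with hL
  obtain ⟨q, hq, hq'⟩ := h1
  set e : W.H X := (L ^ n) 1 with he
  have heA : AS W X e := (G.fr.Lop.pow n).apply AS.one
  have hegr : e ∈ W.gr X (2 * n) := by
    have := pow_L_mem (mulLeft_isHom G.fr.hD) (W.one_mem X) n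
    rwa [zero_add] at this
  have hzA : AS W X (W.cl X z) := AS.of ⟨z, hz.1, rfl⟩
  have hfac : ∀ m : ℕ, (0 : ℚ) < m.factorial := fun m => by exact_mod_cast Nat.factorial_pos _
  set b : ℚ := n.factorial * ((X.dim - n).factorial : ℚ)⁻¹ * q with hb
  have hb0 : 0 < b := by
    have := hfac n
    have := hfac (X.dim - n)
    positivity
  have hee : bf W X D f e e = (b : W.K) := by
    rw [he, bf_one G.fr (by omega), L_pow_self G.fr.hD, ← Module.End.mul_apply, ← pow_add,
      show n + (X.dim - n) = X.dim by omega, one_mul, hq', ← Rat.cast_mul]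
  obtain ⟨r, hr⟩ := G.fr.bf_rat hzA heA
  have hzz := G.fr.form_prim hn hz.1 hz.2
  set t : ℚ := (-1) ^ n * (((X.dim - 2 * n).factorial : ℚ)⁻¹ *
    X.V.degCycle (ops.mul z (divPow ops D (X.dim - 2 * n) z))) with ht
  have ht0 : t < 0 := by
    have h2 : t = ((X.dim - 2 * n).factorial : ℚ)⁻¹ * pairing ops X D n z z := by
      rw [ht, pairing]; ring
    rw [h2]
    exact mul_neg_of_pos_of_neg (inv_pos.2 (hfac _)) hneg
  set c : ℚ := r / b with hc
  set x : W.H X := W.cl X z - (c : W.K) • e with hx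
  have hcb : c * b = r := div_mul_cancel₀ r hb0.ne'
  have hze : bf W X D f e (W.cl X z) = (r : W.K) := by rw [bf_AS_symm G.gd hzA, hr]
  have hxe : bf W X D f x e = 0 := by
    rw [hx, map_sub, LinearMap.sub_apply, map_smul, LinearMap.smul_apply, hr, hee, smul_eq_mul,
      ← Rat.cast_mul, hcb, sub_self]
  have hxx : bf W X D f x x = ((-(c * r - t) : ℚ) : W.K) := by
    have h2 : bf W X D f x x = bf W X D f x (W.cl X z) := by
      conv_lhs => rw [hx, ← hx]
      have : bf W X D f x x = bf W X D f x (W.cl X z) - (c : W.K) * bf W X D f x e := by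
        conv_lhs => rw [hx]
        rw [← hx, map_sub (bf W X D f x), map_smul (bf W X D f x), smul_eq_mul]
      rw [this, hxe, mul_zero, sub_zero]
    rw [h2, hx, map_sub, LinearMap.sub_apply, hzz, map_smul, LinearMap.smul_apply, hze,
      smul_eq_mul]
    push_cast
    ring
  refine ⟨x, e, c * r - t, b, G, AS.ratSub.sub hzA (heA.smul c), heA, ⟨2 * n,
    Submodule.sub_mem _ (W.cl_mem hz.1) (Submodule.smul_mem _ _ hegr), hegr⟩, hxx, hee, hxe,
    ?_, hb0⟩
  have h3 : 0 ≤ c * r := by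
    rw [← hcb, ← mul_assoc]
    exact mul_nonneg (mul_self_nonneg c) hb0.le
  linarith

/-- A class of top degree with nonzero trace. -/
lemma exists_eta (G : Gd W X D f) (h1 : (1 : W.H X) ≠ 0) :
    ∃ η ∈ (cyc W).C X, W.tr X η ≠ 0 := by
  set L := LinearMap.mulLeft W.K (W.cl X D) with hL
  have h2 : (L ^ X.dim) (1 : W.H X) ≠ 0 := fun h0 =>
    h1 ((G.ls.hHL 0 (Nat.zero_le _)).1 1 (W.one_mem X) (by rw [Nat.sub_zero]; exact h0))
  refine ⟨(L ^ X.dim) 1, KA.of ((G.fr.Lop.pow _).apply AS.one), fun h0 => h2 ?_⟩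
  apply W.nondeg
  intro b
  have hgr := pow_L_mem (mulLeft_isHom G.fr.hD) (W.one_mem X) X.dim
  rw [zero_add] at hgr
  refine gr_induction (W.isInternal X) (p := fun b => W.tr X ((L ^ X.dim) 1 * b) = 0) ?_ ?_ b
  · intro i b hb
    rcases Nat.eq_zero_or_pos i with rfl | hi
    · rw [W.gr_zero, Submodule.mem_span_singleton] at hb
      obtain ⟨c, rfl⟩ := hb
      rw [mul_smul_comm, mul_one, map_smul, h0, smul_zero]
    · exact W.tr_eq_zero (W.mul_mem hgr hb) (by omega)
  · intro a b ha hb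
    rw [mul_add, map_add, ha, hb, add_zero]

end Pool.Agent.R910.Sgn
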