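import Pool.Agent.R910.Sgn.Fam2
import Pool.Agent.R910.Sgn.Lin
import Pool.Agent.R910.KA
import Pool.Agent.W539.Ker.Ops

/-!
# Almost anti-isometric algebraic operators bound the signature
-/

open CategoryTheory AlgebraicGeometry Finset

universe u v

namespace Pool.Agent.R910.Sgn

open Module
open Pool.Agent.H914 Pool.Agent.H914.VarClass Pool.Agent.H914.VarClass.Obj
  Pool.Agent.H914.WeilCohomology Pool.Agent.H281R3.HT Pool.Agent.W552 Pool.Agent.W539.Ker

variable {k : Type u} [Field k] {𝒱 : VarClass k} {ops : CycleOps 𝒱}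
  {W : WeilCohomology.{u, v} ops} {X Y : 𝒱.Obj} {D : X.Cycles} {f : Module.End W.K (W.H X)}

lemma AS_par {x : W.H X} (hx : AS W X x) : H914.par (W.isInternal X) x = x := by
  have := Y133.Half.PH.par (AS_even hx)
  rwa [pow_zero, one_smul] at this

lemma bf_AS_symm (G : Gd W X D f) {x y : W.H X} (hy : AS W X y) :
    bf W X D f x y = bf W X D f y x := by
  rw [G.sy x y, AS_par hy]

/-- An operator `T` which is an anti-isometry, up to the factor `ρ`, off the image of the
idempotent `Q`. -/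
structure SO (W : WeilCohomology.{u, v} ops) (X : 𝒱.Obj) (D : X.Cycles)
    (f : Module.End W.K (W.H X)) (ρ : ℚ) (T Q : Module.End W.K (W.H X)) : Prop where
  ta : AOp W X X T
  qa : AOp W X X Q
  th : Hm W 0 T
  qh : Hm W 0 Q
  qq : Q ∘ₗ Q = Q
  form : ∀ z z', bf W X D f (T z) (T z') =
    -(ρ : W.K) * (bf W X D f z z' - bf W X D f (Q z) z')

lemma SO.bound_aux (G : Gd W X D f) {ρ : ℚ} (hρ : 0 < ρ) {T Q : Module.End W.K (W.H X)}
    (h : SO W X D f ρ T Q) (m : ℤ) {ι : Type} [Fintype ι] {y : ι → W.H X} {s : ι → ℚ}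
    (h1 : ∀ i, AS W X (y i)) (h2 : ∀ i, wt (W.isInternal X) X.dim (y i) = (m : W.K) • y i)
    (h3 : ∀ i, s i ≠ 0) (h4 : ∀ i, bf W X D f (y i) (y i) = (s i : W.K))
    (h5 : ∀ i j, i ≠ j → bf W X D f (y i) (y j) = 0)
    (h6 : ∀ u, AS W X u → wt (W.isInternal X) X.dim u = (m : W.K) • u →
      (∀ i, bf W X D f u (y i) = 0) → bf W X D f u u = 0) (ε : ℚ) :
    (univ.filter (fun i => 0 < ε * s i)).card ≤ (univ.filter (fun i => ε * s i < 0)).card +
      finrank W.K (LinearMap.range Q) := by
  classical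
  by_contra hcon
  push Not at hcon
  have F := G.fr
  choose t ht using fun (i : {i // 0 < ε * s i}) (j : {i // ε * s i < 0}) =>
    F.bf_rat (h.ta.apply (h1 i.1)) (h1 j.1)
  choose q hq using fun (i : {i // 0 < ε * s i}) (j : {i // 0 < ε * s i}) =>
    F.bf_rat (h.qa.apply (h1 i.1)) (h1 j.1)
  let Ψ : W.H X →ₗ[W.K] ({i // 0 < ε * s i} → W.K) :=
    LinearMap.pi fun j => (bf W X D f).flip (y j.1)
  have hΨ : ∀ u j, Ψ u j = bf W X D f u (y j.1) := fun u j => rfl
  have hr : finrank ℚ (Submodule.span ℚ (Set.range q)) ≤ finrank W.K (LinearMap.range Q) := by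
    refine (rat_rank q ((LinearMap.range Q).map Ψ) ?_).trans (Submodule.finrank_map_le _ _)
    intro i
    refine ⟨Q (y i.1), ⟨_, rfl⟩, ?_⟩
    funext j
    rw [hΨ, hq]
  obtain ⟨c, hc0, hc1, hc2⟩ := exists_kernel t q hr (by
    rw [Fintype.card_subtype, Fintype.card_subtype]
    exact hcon)
  set v : W.H X := ∑ i, (c i : W.K) • y i.1 with hv
  have hvA : AS W X v := AS.ratSub.sum _ fun i _ => (h1 i.1).smul (c i)
  have hvm : wt (W.isInternal X) X.dim v = (m : W.K) • v := by
    rw [hv, map_sum, Finset.smul_sum]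
    apply Finset.sum_congr rfl
    intro i _
    rw [map_smul, h2, smul_comm]
  have hvy : ∀ i, bf W X D f (y i.1) v = (c i : W.K) * (s i.1 : W.K) := by
    intro i
    rw [hv, map_sum, Finset.sum_eq_single i]
    · rw [map_smul, h4, smul_eq_mul]
    · intro j _ hj
      rw [map_smul, h5 _ _ (fun h0 => hj (Subtype.ext h0.symm)), smul_zero]
    · intro h0; exact absurd (Finset.mem_univ _) h0
  have hvv : bf W X D f v v = ((∑ i, c i * c i * s i.1 : ℚ) : W.K) := by
    conv_lhs => rw [hv]
    rw [map_sum (bf W X D f), LinearMap.sum_apply, Rat.cast_sum]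
    apply Finset.sum_congr rfl
    intro i _
    rw [map_smul, LinearMap.smul_apply, ← hv, hvy, smul_eq_mul]
    push_cast
    ring
  have hQv : bf W X D f (Q v) v = 0 := by
    have e1 : bf W X D f (Q v) v = ∑ j, (c j : W.K) * bf W X D f (Q v) (y j.1) := by
      conv_lhs => rw [hv]
      rw [← hv, map_sum (bf W X D f (Q v))]
      apply Finset.sum_congr rfl
      intro j _
      rw [map_smul, smul_eq_mul]
    rw [e1]
    apply Finset.sum_eq_zero
    intro j _
    have e2 : bf W X D f (Q v) (y j.1) = ((∑ i, c i * q i j : ℚ) : W.K) := by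
      rw [hv, map_sum, map_sum, LinearMap.sum_apply, Rat.cast_sum]
      apply Finset.sum_congr rfl
      intro i _
      rw [map_smul, map_smul, LinearMap.smul_apply, hq, smul_eq_mul, Rat.cast_mul]
    rw [e2, hc2, Rat.cast_zero, mul_zero]
  set w := T v with hw
  have hwA : AS W X w := h.ta.apply hvA
  have hwm : wt (W.isInternal X) X.dim w = (m : W.K) • w := by
    rw [hw, h.th.apply, hvm, map_smul]
    simp
  have hww : bf W X D f w w = ((-(ρ * ∑ i, c i * c i * s i.1) : ℚ) : W.K) := by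
    rw [hw, h.form, hQv, hvv]
    push_cast
    ring
  choose e he using fun i => F.bf_rat hwA (h1 i)
  have he0 : ∀ j, ε * s j < 0 → e j = 0 := by
    intro j hj
    have e2 : bf W X D f w (y j) = ((∑ i, c i * t i ⟨j, hj⟩ : ℚ) : W.K) := by
      rw [hw, hv, map_sum, map_sum, LinearMap.sum_apply, Rat.cast_sum]
      apply Finset.sum_congr rfl
      intro i _
      rw [map_smul, map_smul, LinearMap.smul_apply, ht i ⟨j, hj⟩, smul_eq_mul, Rat.cast_mul]
    rw [he, hc1] at e2
    exact_mod_cast e2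
  set w' := w - ∑ i, ((e i / s i : ℚ) : W.K) • y i with hw'
  have hw'y : ∀ j, bf W X D f w' (y j) = 0 := by
    intro j
    rw [hw', map_sub, LinearMap.sub_apply, map_sum, LinearMap.sum_apply, he,
      Finset.sum_eq_single j]
    · rw [map_smul, LinearMap.smul_apply, h4, smul_eq_mul, ← Rat.cast_mul,
        div_mul_cancel₀ _ (h3 j), sub_self]
    · intro i _ hi
      rw [map_smul, LinearMap.smul_apply, h5 _ _ hi, smul_zero]
    · intro h0; exact absurd (Finset.mem_univ _) h0
  have hw'A : AS W X w' := AS.ratSub.sub hwA (AS.ratSub.sum _ fun i _ => (h1 i).smul _)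
  have hw'm : wt (W.isInternal X) X.dim w' = (m : W.K) • w' := by
    rw [hw', map_sub, hwm, map_sum, smul_sub, Finset.smul_sum]
    congr 1
    apply Finset.sum_congr rfl
    intro i _
    rw [map_smul, h2, smul_comm]
  have h7 := h6 w' hw'A hw'm hw'y
  have h8 : bf W X D f w' w' = ((-(ρ * ∑ i, c i * c i * s i.1) - ∑ i, e i * e i / s i : ℚ) :
      W.K) := by
    have e1 : bf W X D f w' w' = bf W X D f w' w - ∑ i, ((e i / s i : ℚ) : W.K) *
        bf W X D f w' (y i) := by
      conv_lhs => rw [hw', ← hw']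
      rw [hw', ← hw', map_sub (bf W X D f w'), map_sum]
      congr 1
      apply Finset.sum_congr rfl
      intro i _
      rw [map_smul, smul_eq_mul]
    rw [e1, Finset.sum_eq_zero (fun i _ => by rw [hw'y, mul_zero]), sub_zero, hw', map_sub,
      LinearMap.sub_apply, hww, map_sum, LinearMap.sum_apply, Rat.cast_sub, Rat.cast_sum]
    congr 1
    apply Finset.sum_congr rfl
    intro i _
    rw [map_smul, LinearMap.smul_apply, bf_AS_symm G hwA, he, smul_eq_mul]
    push_cast
    ring
  rw [h8] at h7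
  have h9 : -(ρ * ∑ i, c i * c i * s i.1) - ∑ i, e i * e i / s i = 0 := by exact_mod_cast h7
  have h10 : 0 < ρ * (ε * ∑ i, c i * c i * s i.1) := by
    apply mul_pos hρ
    rw [Finset.mul_sum]
    obtain ⟨i, hi⟩ : ∃ i, c i ≠ 0 := by
      by_contra hall
      push Not at hall
      exact hc0 (funext hall)
    apply Finset.sum_pos'
    · intro j _
      have := mul_nonneg (mul_self_nonneg (c j)) j.2.le
      linarith
    · refine ⟨i, Finset.mem_univ _, ?_⟩
      have := mul_pos (mul_self_pos.2 hi) i.2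
      linarith
  have h11 : 0 ≤ ∑ i, ε * (e i * e i / s i) := by
    apply Finset.sum_nonneg
    intro i _
    rcases lt_trichotomy (ε * s i) 0 with h0 | h0 | h0
    · rw [he0 i h0]; simp
    · have : ε = 0 := (mul_eq_zero.1 h0).resolve_right (h3 i)
      rw [this]; simp
    · have e1 : ε * (e i * e i / s i) = (ε * s i) * (e i / s i * (e i / s i)) := by
        have := h3 i
        field_simp
      rw [e1]
      exact mul_nonneg h0.le (mul_self_nonneg _)
  rw [← Finset.mul_sum] at h11
  have h12 : ε * (-(ρ * ∑ i, c i * c i * s i.1) - ∑ i, e i * e i / s i) = 0 := by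
    rw [h9, mul_zero]
  nlinarith

/-- **The signature is bounded by the rank of the idempotent.** -/
theorem SO.bound (G : Gd W X D f) {ρ : ℚ} (hρ : 0 < ρ) {T Q : Module.End W.K (W.H X)}
    (h : SO W X D f ρ T Q) (m : ℤ) :
    wsumN X.dim (posNum W ⟨X, D⟩) m ≤ wsumN X.dim (negNum W ⟨X, D⟩) m +
        finrank W.K (LinearMap.range Q) ∧
      wsumN X.dim (negNum W ⟨X, D⟩) m ≤ wsumN X.dim (posNum W ⟨X, D⟩) m +
        finrank W.K (LinearMap.range Q) := by
  obtain ⟨ι, _, y, s, h1, h2, h3, h4, h5, h6, h7, h8⟩ := exists_fam2 G.fr m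
  rw [← h7, ← h8]
  constructor
  · have := h.bound_aux G hρ m h1 h2 h3 h4 h5 h6 1
    simpa using this
  · have := h.bound_aux G hρ m h1 h2 h3 h4 h5 h6 (-1)
    simpa using this

end Pool.Agent.R910.Sgn
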