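import Pool.Agent.R910.Sgn.Step
import Pool.Agent.Y133.Half.Pow

/-!
# Isomorphisms of polarized varieties
-/

open CategoryTheory AlgebraicGeometry Finset

universe u v

namespace Pool.Agent.R910.Sgn

open Module
open Pool.Agent.H914 Pool.Agent.H914.VarClass Pool.Agent.H914.VarClass.Obj
  Pool.Agent.H914.WeilCohomology Pool.Agent.H281R3.HT Pool.Agent.W552 Pool.Agent.W539.Ker
  Pool.Agent.Y133.Half

variable {k : Type u} [Field k] {𝒱 : VarClass k} {ops : CycleOps 𝒱}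
  {W : WeilCohomology.{u, v} ops} {P Q R P' Q' : Polarized 𝒱}

/-- Isomorphic polarized varieties. -/
def PIso (W : WeilCohomology.{u, v} ops) (P Q : Polarized 𝒱) : Prop :=
  P.X.dim = Q.X.dim ∧ ∃ θ : P.X ≅ Q.X, (∀ c, W.tr P.X (W.map θ.hom c) = W.tr Q.X c) ∧
    W.map θ.hom (W.cl Q.X Q.D) = W.cl P.X P.D

lemma PIso.refl (P : Polarized 𝒱) : PIso W P P :=
  ⟨rfl, Iso.refl _, fun c => congrArg _ (W.map_id _ c), W.map_id _ _⟩

lemma PIso.symm (h : PIso W P Q) : PIso W Q P := by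
  obtain ⟨h0, θ, h1, h2⟩ := h
  have hinv : ∀ x : W.H P.X, W.map θ.hom (W.map θ.inv x) = x := by
    intro x
    rw [← W.map_comp, θ.hom_inv_id, W.map_id]
  have hinv' : ∀ x : W.H Q.X, W.map θ.inv (W.map θ.hom x) = x := by
    intro x
    rw [← W.map_comp, θ.inv_hom_id, W.map_id]
  refine ⟨h0.symm, θ.symm, fun c => ?_, ?_⟩
  · rw [Iso.symm_hom, ← h1, hinv]
  · rw [Iso.symm_hom, ← h2, hinv']

lemma PIso.trans (h : PIso W P Q) (h' : PIso W Q R) : PIso W P R := by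
  obtain ⟨h0, θ, h1, h2⟩ := h
  obtain ⟨h0', θ', h1', h2'⟩ := h'
  refine ⟨h0.trans h0', θ ≪≫ θ', fun c => ?_, ?_⟩
  · rw [Iso.trans_hom, W.map_comp, h1, h1']
  · rw [Iso.trans_hom, W.map_comp, h2', h2]

lemma PIso.prod (h : PIso W P P') (h' : PIso W Q Q') :
    PIso W (P.prod ops Q) (P'.prod ops Q') := by
  obtain ⟨h0, α, h1, h2⟩ := h
  obtain ⟨h0', β, h1', h2'⟩ := h'
  have e1 : (prodCongr α β).hom ≫ fst P'.X Q'.X = fst P.X Q.X ≫ α.hom := Obj.lift_fst _ _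
  have e2 : (prodCongr α β).hom ≫ snd P'.X Q'.X = snd P.X Q.X ≫ β.hom := Obj.lift_snd _ _
  refine ⟨?_, prodCongr α β, fun c => ?_, ?_⟩
  · change (P.X.prod Q.X).dim = (P'.X.prod Q'.X).dim
    rw [dim_prod, dim_prod, h0, h0']
  · change W.tr (P.X.prod Q.X) (W.map (prodCongr α β).hom c) = W.tr (P'.X.prod Q'.X) c
    refine W.kunneth_induction (p := fun c => W.tr (P.X.prod Q.X) (W.map (prodCongr α β).hom c) =
      W.tr (P'.X.prod Q'.X) c) ?_ ?_ c
    · intro a b ha hb; rw [map_add, map_add, map_add, ha, hb]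
    · intro i j a _ b _
      rw [map_mul, ← W.map_comp, ← W.map_comp, e1, e2, W.map_comp, W.map_comp, W.tr_prod,
        W.tr_prod, h1, h1']
  · change W.map (prodCongr α β).hom (W.cl (P'.X.prod Q'.X) (ops.pull (fst P'.X Q'.X) P'.D +
      ops.pull (snd P'.X Q'.X) Q'.D)) = W.cl (P.X.prod Q.X) (ops.pull (fst P.X Q.X) P.D +
      ops.pull (snd P.X Q.X) Q.D)
    rw [map_add, map_add, W.cl_pull, W.cl_pull, ← W.map_comp, ← W.map_comp, e1, e2, W.map_comp,
      W.map_comp, h2, h2', map_add, W.cl_pull, W.cl_pull]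

lemma PIso.assoc (P Q R : Polarized 𝒱) :
    PIso W ((P.prod ops Q).prod ops R) (P.prod ops (Q.prod ops R)) := by
  have e1 : (θ₃ P.X Q.X R.X).hom ≫ fst _ _ = fst _ _ ≫ fst _ _ := Obj.lift_fst _ _
  have e2 : (θ₃ P.X Q.X R.X).hom ≫ snd _ _ = Obj.lift (fst _ _ ≫ snd _ _) (snd _ _) :=
    Obj.lift_snd _ _
  refine ⟨?_, θ₃ P.X Q.X R.X, fun c => ?_, ?_⟩
  · change ((P.X.prod Q.X).prod R.X).dim = (P.X.prod (Q.X.prod R.X)).dim
    rw [dim_prod, dim_prod, dim_prod, dim_prod, add_assoc]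
  · have h : W.tr ((P.X.prod Q.X).prod R.X) ∘ₗ (W.map (θ₃ P.X Q.X R.X).hom).toLinearMap =
        W.tr (P.X.prod (Q.X.prod R.X)) := by
      apply xpL_ext
      intro i j l p _ a _ b _
      rw [LinearMap.comp_apply, AlgHom.toLinearMap_apply, θ₃_xp, tr_xp, tr_xp, tr_xp, tr_xp,
        mul_assoc]
    exact congrArg (fun f => f c) h
  · change W.map (θ₃ P.X Q.X R.X).hom (W.cl (P.X.prod (Q.X.prod R.X))
      (ops.pull (fst P.X (Q.X.prod R.X)) P.D + ops.pull (snd P.X (Q.X.prod R.X))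
        (ops.pull (fst Q.X R.X) Q.D + ops.pull (snd Q.X R.X) R.D))) =
      W.cl ((P.X.prod Q.X).prod R.X) (ops.pull (fst (P.X.prod Q.X) R.X)
        (ops.pull (fst P.X Q.X) P.D + ops.pull (snd P.X Q.X) Q.D) +
        ops.pull (snd (P.X.prod Q.X) R.X) R.D)
    have f2 : (θ₃ P.X Q.X R.X).hom ≫ snd _ _ ≫ fst _ _ = fst _ _ ≫ snd _ _ := by
      rw [← Category.assoc, e2, Obj.lift_fst]
    have f3 : (θ₃ P.X Q.X R.X).hom ≫ snd _ _ ≫ snd _ _ = snd _ _ := by
      rw [← Category.assoc, e2, Obj.lift_snd]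
    simp only [map_add, W.cl_pull, ← W.map_comp, Category.assoc, e1, f2, f3]
    rw [add_assoc]

lemma PIso.of_eq (h : P = Q) : PIso W P Q := by subst h; exact PIso.refl P

/-- `P^(m+1) × P^(n+1) ≅ P^(m+n+2)`. -/
lemma PIso.power (P : Polarized 𝒱) (m n : ℕ) :
    PIso W ((power ops P m).prod ops (power ops P n)) (Sgn.power ops P (m + n + 1)) := by
  induction n with
  | zero => exact PIso.refl _
  | succ n ih => exact (PIso.assoc _ _ _).symm.trans (ih.prod (PIso.refl P))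

lemma PIso.hasFamily (h : PIso W P Q) (hP : P.X.IsCyc 1 P.D) (hQ : Q.X.IsCyc 1 Q.D) {n : ℕ}
    (hn : 2 * n ≤ P.X.dim) {s : ℚ} {r : ℕ} (hf : HasFamily W Q.X Q.D n s r) :
    HasFamily W P.X P.D n s r := by
  obtain ⟨h0, θ, htr, hcl⟩ := h
  obtain ⟨z, hz, hpos, horth⟩ := hf
  have hpow : ∀ (m : ℕ) (x : W.H Q.X),
      ((LinearMap.mulLeft W.K (W.cl P.X P.D)) ^ m) (W.map θ.hom x) =
        W.map θ.hom (((LinearMap.mulLeft W.K (W.cl Q.X Q.D)) ^ m) x) := by
    intro m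
    induction m with
    | zero => intro x; simp
    | succ m ih =>
      intro x
      rw [pow_succ, Module.End.mul_apply, LinearMap.mulLeft_apply, ← hcl, ← map_mul, hcl, ih,
        pow_succ, Module.End.mul_apply, LinearMap.mulLeft_apply]
  have hprim : ∀ i, Primitive W P.X P.D n (ops.pull θ.hom (z i)) := by
    intro i
    refine ⟨ops.pull_mem _ (hz i).1, ?_⟩
    have h1 := (hz i).2
    rw [cl_divPow] at h1
    rw [cl_divPow, W.cl_pull, hpow, h0, h1, map_zero]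
  have hpair : ∀ i j, pairing ops P.X P.D n (ops.pull θ.hom (z i))
      (ops.pull θ.hom (z j)) = pairing ops Q.X Q.D n (z i) (z j) := by
    intro i j
    have h1 : ((pairing ops P.X P.D n (ops.pull θ.hom (z i))
      (ops.pull θ.hom (z j)) : ℚ) : W.K) =
        ((pairing ops Q.X Q.D n (z i) (z j) : ℚ) : W.K) := by
      rw [pairing_cast hP hn (hprim i).1 (hprim j).1,
        pairing_cast hQ (by omega) (hz i).1 (hz j).1, W.cl_pull, W.cl_pull, hpow,
        ← map_mul, htr, h0]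
    exact_mod_cast h1
  exact ⟨fun i => ops.pull θ.hom (z i), hprim, fun i => by rw [hpair]; exact hpos i,
    fun i j hij => by rw [hpair]; exact horth i j hij⟩

lemma PIso.nums (h : PIso W P Q) (hP : P.X.IsCyc 1 P.D) (hQ : Q.X.IsCyc 1 Q.D) {n : ℕ}
    (hn : 2 * n ≤ P.X.dim) : posNum W P n = posNum W Q n ∧ negNum W P n = negNum W Q n := by
  have h2 := h.1
  constructor
  · rw [posNum, posNum]
    congr 1
    ext r
    exact ⟨h.symm.hasFamily hQ hP (by omega), h.hasFamily hP hQ hn⟩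
  · rw [negNum, negNum]
    congr 1
    ext r
    exact ⟨h.symm.hasFamily hQ hP (by omega), h.hasFamily hP hQ hn⟩

lemma PIso.excess_eq (h : PIso W P Q) (hP : P.X.IsCyc 1 P.D) (hQ : Q.X.IsCyc 1 Q.D) :
    excess W P = excess W Q := by
  rw [excess, excess, ← h.1]
  apply Finset.sum_congr rfl
  intro n hn
  rw [Finset.mem_range] at hn
  obtain ⟨h1, h2⟩ := h.nums hP hQ (n := n) (by omega)
  rw [h1, h2]

lemma PIso.total_eq (h : PIso W P Q) (hP : P.X.IsCyc 1 P.D) (hQ : Q.X.IsCyc 1 Q.D) :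
    total W P = total W Q := by
  rw [total, total, ← h.1]
  apply Finset.sum_congr rfl
  intro n hn
  rw [Finset.mem_range] at hn
  obtain ⟨h1, h2⟩ := h.nums hP hQ (n := n) (by omega)
  rw [h1, h2]

end Pool.Agent.R910.Sgn
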