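import Pool.Agent.R910.Sgn.Exc

/-!
# Products of polarized varieties with algebraic Kunneth projectors and lowering operators
-/

open CategoryTheory AlgebraicGeometry Finset

universe u v

namespace Pool.Agent.R910.Sgn

open Module
open Pool.Agent.H914 Pool.Agent.H914.VarClass Pool.Agent.H914.VarClass.Obj
  Pool.Agent.H914.WeilCohomology Pool.Agent.H281R3.HT Pool.Agent.W552 Pool.Agent.W539.Ker

/-- The hard Lefschetz theorem for an `sl_2`-triple. -/
lemma hardLef_of_sl2 {K : Type*} [Field K] [CharZero K] {V : Type*} [AddCommGroup V] [Module K V]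
    [Module.Finite K V] {gr : ℕ → Submodule K V} (h : DirectSum.IsInternal gr) {n : ℕ}
    (hbd : ∀ i, 2 * n + 1 ≤ i → gr i = ⊥) {L f : Module.End K V}
    (t : Sl2 (wt h n) L f) : HardLef gr n L := by
  intro i hi
  have hwt : ∀ (j : ℕ), ∀ a ∈ gr j, wt h n a = ((j : K) - n) • a := by
    intro j a ha
    rw [wt, scal_apply _ _ ha, node]
    push_cast
    rfl
  have htwo : ∀ x : V, (2 : Module.End K V) x = (2 : K) • x := by
    intro x
    rw [ofNat_smul_eq_nsmul]; rfl
  constructor
  · intro a ha h0
    refine Pool.Agent.H447.e_pow_inj t (c := n - i) ?_ h0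
    rw [hwt i a ha, Nat.cast_sub hi]
    congr 1
    ring
  · intro b hb
    obtain ⟨z, hz, hzb⟩ := exists_preimage' t (P := fun d x => wt h n x = (d : K) • x)
      (fun d => by rw [map_zero, smul_zero])
      (fun {d x y} hx hy => by rw [map_add, hx, hy, smul_add])
      (fun q {d x} hx => by rw [map_smul, hx, smul_comm])
      (fun {d x} hx => by
        have h1 := congrArg (fun G => G x) t.he
        simp only [LinearMap.sub_apply, Module.End.mul_apply, hx, map_smul] at h1
        rw [htwo, sub_eq_iff_eq_add] at h1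
        rw [h1, ← add_smul]
        congr 1
        push_cast
        ring)
      (fun {d x} hx => by
        have h1 := congrArg (fun G => G x) t.hf
        simp only [LinearMap.sub_apply, Module.End.mul_apply, LinearMap.neg_apply, hx,
          map_smul] at h1
        rw [htwo, sub_eq_iff_eq_add] at h1
        rw [h1, ← neg_smul, ← add_smul]
        congr 1
        push_cast
        ring)
      (fun {d x} hx => hx) (n - i) (y := b) (by
        rw [hwt _ b hb]
        congr 1
        push_cast [Nat.cast_sub hi, Nat.cast_sub (show i ≤ 2 * n by omega)]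
        ring)
    refine ⟨z, (mem_gr_of_wt h hbd hz).1 i ?_, hzb⟩
    push_cast [Nat.cast_sub hi]
    ring

variable {k : Type u} [Field k] {𝒱 : VarClass k} {ops : CycleOps 𝒱}
  {W : WeilCohomology.{u, v} ops} {X Y : 𝒱.Obj} {D : X.Cycles} {f : Module.End W.K (W.H X)}

/-- A polarized variety with algebraic Kunneth projectors and an algebraic lowering operator. -/
structure Gq (W : WeilCohomology.{u, v} ops) (X : 𝒱.Obj) (D : X.Cycles)
    (f : Module.End W.K (W.H X)) : Prop where
  fr : Fr W X D f
  pr : ∀ i, AOp W X X (proj (W.isInternal X) i)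

lemma exists_gq (hD : X.IsCyc 1 D) (hHL : HardLefschetz W X D)
    (hB : LefschetzB W X D) : ∃ f, Gq W X D f := by
  obtain ⟨f, F, t⟩ := exists_fr hD hHL hB
  exact ⟨f, F, proj_aop hD hHL hB⟩

lemma Gq.gd (G : Gq W X D f) : Gd W X D f where
  fr := G.fr
  ls := ⟨mulLeft_isHom G.fr.hD, W_hbd, hardLef_of_sl2 _ W_hbd G.fr.sl2, G.fr.sl2⟩
  sa := st_aop G.fr G.pr
  pa := par_aop G.pr

lemma proj_prod (i : ℕ) : proj (W.isInternal (X.prod Y)) i =
    ∑ a ∈ range (i + 1), extOp W (proj (W.isInternal X) a) (proj (W.isInternal Y) (i - a)) := by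
  apply LinearMap.ext
  intro c
  refine W.kunneth_induction (p := fun c => proj (W.isInternal (X.prod Y)) i c =
    (∑ a ∈ range (i + 1), extOp W (proj (W.isInternal X) a) (proj (W.isInternal Y) (i - a))) c)
    ?_ ?_ c
  · intro a b ha hb; rw [map_add, ha, hb, map_add]
  intro p q x hx y hy
  rw [LinearMap.sum_apply]
  have hxy := W.mul_mem (W.map_mem (fst X Y) hx) (W.map_mem (snd X Y) hy)
  by_cases hpq : p + q = i
  · subst hpq
    rw [proj_same _ hxy, Finset.sum_eq_single p]
    · rw [extOp_tmul, proj_same _ hx, Nat.add_sub_cancel_left, proj_same _ hy]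
    · intro a _ ha
      rw [extOp_tmul, proj_ne _ hx (Ne.symm ha), map_zero, zero_mul]
    · intro h0; exact absurd (Finset.mem_range.2 (by omega)) h0
  · rw [proj_ne _ hxy hpq]
    symm
    apply Finset.sum_eq_zero
    intro a ha
    rw [Finset.mem_range] at ha
    rw [extOp_tmul]
    by_cases hpa : p = a
    · subst hpa
      rw [proj_ne _ hy (by omega), map_zero, mul_zero]
    · rw [proj_ne _ hx hpa, map_zero, zero_mul]

lemma Gq.prod (G : Gq W X D f) {E : Y.Cycles} {g : Module.End W.K (W.H Y)} (G' : Gq W Y E g) :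
    Gq W (X.prod Y) (ops.pull (fst X Y) D + ops.pull (snd X Y) E) (extSum W f g) where
  fr := G.fr.prod G'.fr
  pr i := by
    rw [proj_prod]
    exact AOp.ratSub.sum _ fun a _ => (G.pr a).ext (G'.pr _)

/-- External products of operators preserving the weight preserve the weight. -/
lemma hm_ext {a : Module.End W.K (W.H X)} {b : Module.End W.K (W.H Y)} (ha : Hm W 0 a)
    (hb : Hm W 0 b) : Hm W 0 (extOp W a b) := by
  rw [Hm, Int.cast_zero, zero_smul, add_zero, wt_prod]
  apply ext_kunneth_lin
  intro x y
  have h1 := ha.apply x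
  have h2 := hb.apply y
  rw [Int.cast_zero, zero_smul, add_zero] at h1 h2
  rw [LinearMap.comp_apply, LinearMap.comp_apply, extOp_tmul, extSum_tmul, extSum_tmul, map_add,
    extOp_tmul, extOp_tmul, h1, h2]

end Pool.Agent.R910.Sgn
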