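import Pool.Agent.R910.Sgn.Prod

/-!
# The inductive construction of almost anti-isometric operators on products
-/

open CategoryTheory AlgebraicGeometry Finset

universe u v

namespace Pool.Agent.R910.Sgn

open Module
open Pool.Agent.H914 Pool.Agent.H914.VarClass Pool.Agent.H914.VarClass.Obj
  Pool.Agent.H914.WeilCohomology Pool.Agent.H281R3.HT Pool.Agent.W552 Pool.Agent.W539.Ker

variable {k : Type u} [Field k] {𝒱 : VarClass k} {ops : CycleOps 𝒱}
  {W : WeilCohomology.{u, v} ops} {X Y : 𝒱.Obj} {D : X.Cycles} {f : Module.End W.K (W.H X)}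

lemma hm_sub {m : ℤ} {u u' : W.H X →ₗ[W.K] W.H Y} (h : Hm W m u) (h' : Hm W m u') :
    Hm W m (u - u') := by
  rw [Hm, LinearMap.comp_sub, h, h', LinearMap.sub_comp]
  module

lemma extOp_ext (a : Module.End W.K (W.H X)) (b : Module.End W.K (W.H Y)) (u : W.H X)
    (w : W.H Y) : extOp W a b (ext W u w) = ext W (a u) (b w) := extOp_tmul a b u w

/-- The operator `z ↦ ⟨z, a⟩ b`. -/
noncomputable def ro (W : WeilCohomology.{u, v} ops) (X : 𝒱.Obj) (D : X.Cycles)
    (f : Module.End W.K (W.H X)) (a b : W.H X) : Module.End W.K (W.H X) :=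
  ((bf W X D f).flip a).smulRight b

lemma ro_apply (a b z : W.H X) : ro W X D f a b z = bf W X D f z a • b := rfl

lemma ro_aop (F : Fr W X D f) {a b : W.H X} (ha : AS W X a) (hb : AS W X b) :
    AOp W X X (ro W X D f a b) := by
  refine ⟨ext W (st W X D f a) b, (F.st_AS ha).ext hb, ?_⟩
  apply gr_ext (W.isInternal X)
  intro i z hz
  have h1 := Y133.Half.corr_xp (st W X D f a) (AS_even hb) (Y133.Half.PH.of (W := W) hz)
  rw [zero_mul, pow_zero, one_mul, (F.st_AS ha).comm] at h1
  exact h1

lemma ro_hm (G : Gd W X D f) {i : ℕ} {a b : W.H X} (ha : a ∈ W.gr X i) (hb : b ∈ W.gr X i) :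
    Hm W 0 (ro W X D f a b) := by
  rw [Hm, Int.cast_zero, zero_smul, add_zero]
  apply LinearMap.ext
  intro z
  rw [LinearMap.comp_apply, LinearMap.comp_apply, ro_apply, ro_apply, map_smul, Fr.wt_gr hb,
    G.wt_self, Fr.wt_gr ha, map_smul, smul_smul, smul_eq_mul, mul_comm]

lemma ro_trace (a b : W.H X) : LinearMap.trace W.K (W.H X) (ro W X D f a b) = bf W X D f b a := by
  rw [ro, LinearMap.trace_smulRight]
  rfl

/-- Data of a negative and of a positive class of the same degree. -/
structure NP (W : WeilCohomology.{u, v} ops) (X : 𝒱.Obj) (D : X.Cycles)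
    (f : Module.End W.K (W.H X)) (x e : W.H X) (a b : ℚ) : Prop where
  gq : Gq W X D f
  hx : AS W X x
  he : AS W X e
  deg : ∃ i, x ∈ W.gr X i ∧ e ∈ W.gr X i
  xx : bf W X D f x x = (-a : ℚ)
  ee : bf W X D f e e = (b : ℚ)
  xe : bf W X D f x e = 0
  ha : 0 < a
  hb : 0 < b

section NP

variable {x e : W.H X} {a b : ℚ}

/-- The projection to the span of the two classes. -/
noncomputable def pj (W : WeilCohomology.{u, v} ops) (X : 𝒱.Obj) (D : X.Cycles)
    (f : Module.End W.K (W.H X)) (x e : W.H X) (a b : ℚ) : Module.End W.K (W.H X) :=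
  ((-a⁻¹ : ℚ) : W.K) • ro W X D f x x + ((b⁻¹ : ℚ) : W.K) • ro W X D f e e

/-- The exchange of the two classes. -/
noncomputable def ex (W : WeilCohomology.{u, v} ops) (X : 𝒱.Obj) (D : X.Cycles)
    (f : Module.End W.K (W.H X)) (x e : W.H X) (a b : ℚ) : Module.End W.K (W.H X) :=
  ((-a⁻¹ : ℚ) : W.K) • ro W X D f x e + ((a⁻¹ : ℚ) : W.K) • ro W X D f e x

lemma pj_apply (z : W.H X) : pj W X D f x e a b z =
    ((-a⁻¹ : ℚ) : W.K) • (bf W X D f z x • x) + ((b⁻¹ : ℚ) : W.K) • (bf W X D f z e • e) := rfl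

lemma ex_apply (z : W.H X) : ex W X D f x e a b z =
    ((-a⁻¹ : ℚ) : W.K) • (bf W X D f z x • e) + ((a⁻¹ : ℚ) : W.K) • (bf W X D f z e • x) := rfl

variable (N : NP W X D f x e a b)

include N

lemma NP.ex' : bf W X D f e x = 0 := by rw [bf_AS_symm N.gq.gd N.hx, N.xe]

lemma NP.cast_a : (a : W.K) ≠ 0 := by exact_mod_cast N.ha.ne'

lemma NP.cast_b : (b : W.K) ≠ 0 := by exact_mod_cast N.hb.ne'

lemma NP.pj_aop : AOp W X X (pj W X D f x e a b) :=
  ((ro_aop N.gq.fr N.hx N.hx).smul _).add ((ro_aop N.gq.fr N.he N.he).smul _)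

lemma NP.ex_aop : AOp W X X (ex W X D f x e a b) :=
  ((ro_aop N.gq.fr N.hx N.he).smul _).add ((ro_aop N.gq.fr N.he N.hx).smul _)

lemma NP.pj_hm : Hm W 0 (pj W X D f x e a b) := by
  obtain ⟨i, h1, h2⟩ := N.deg
  exact ((ro_hm N.gq.gd h1 h1).smul _).add ((ro_hm N.gq.gd h2 h2).smul _)

lemma NP.ex_hm : Hm W 0 (ex W X D f x e a b) := by
  obtain ⟨i, h1, h2⟩ := N.deg
  exact ((ro_hm N.gq.gd h1 h2).smul _).add ((ro_hm N.gq.gd h2 h1).smul _)

lemma NP.pj_x : pj W X D f x e a b x = x := by
  rw [pj_apply, N.xx, N.xe, zero_smul, smul_zero, add_zero, smul_smul, ← Rat.cast_mul,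
    neg_mul_neg, inv_mul_cancel₀ N.ha.ne', Rat.cast_one, one_smul]

lemma NP.pj_e : pj W X D f x e a b e = e := by
  rw [pj_apply, N.ee, N.ex', zero_smul, smul_zero, zero_add, smul_smul, ← Rat.cast_mul,
    inv_mul_cancel₀ N.hb.ne', Rat.cast_one, one_smul]

lemma NP.pj_pj : pj W X D f x e a b ∘ₗ pj W X D f x e a b = pj W X D f x e a b := by
  apply LinearMap.ext
  intro z
  rw [LinearMap.comp_apply]
  conv_lhs => rw [pj_apply (z := z)]
  rw [map_add, map_smul, map_smul, map_smul, map_smul, N.pj_x, N.pj_e, ← pj_apply]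

lemma NP.qj_qj : (1 - pj W X D f x e a b) ∘ₗ (1 - pj W X D f x e a b) =
    1 - pj W X D f x e a b := by
  have h := N.pj_pj
  change pj W X D f x e a b * pj W X D f x e a b = _ at h
  change (1 - pj W X D f x e a b) * (1 - pj W X D f x e a b) = _
  rw [mul_sub, sub_mul, sub_mul, h]
  simp

lemma NP.pj_trace : LinearMap.trace W.K (W.H X) (pj W X D f x e a b) = 2 := by
  rw [pj, map_add, map_smul, map_smul, ro_trace, ro_trace, N.xx, N.ee, smul_eq_mul, smul_eq_mul,
    ← Rat.cast_mul, ← Rat.cast_mul, neg_mul_neg, inv_mul_cancel₀ N.ha.ne',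
    inv_mul_cancel₀ N.hb.ne', Rat.cast_one]
  norm_num

/-- The rank of the complementary projection. -/
lemma NP.qj_rank : finrank W.K (LinearMap.range (1 - pj W X D f x e a b)) + 2 =
    finrank W.K (W.H X) := by
  have e1 := Y133.Half.trace_idem N.qj_qj
  rw [map_sub, N.pj_trace, Module.End.one_eq_id, LinearMap.trace_id] at e1
  have e3 : ((finrank W.K (LinearMap.range (1 - pj W X D f x e a b)) + 2 : ℕ) : W.K) =
      ((finrank W.K (W.H X) : ℕ) : W.K) := by
    rw [Nat.cast_add]
    have : (finrank W.K (LinearMap.range (1 - pj W X D f x e a b)) : W.K) =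
      ((finrank W.K (W.H X) : ℕ) : W.K) - 2 := e1.symm
    rw [this]
    push_cast
    ring
  exact_mod_cast e3

/-- The projection is self-adjoint. -/
lemma NP.pj_self (z z' : W.H X) : bf W X D f (pj W X D f x e a b z) z' =
    bf W X D f z (pj W X D f x e a b z') := by
  have h1 := bf_AS_symm N.gq.gd (x := z') N.hx
  have h2 := bf_AS_symm N.gq.gd (x := z') N.he
  rw [pj_apply, pj_apply, map_add, map_add, LinearMap.add_apply, map_smul, map_smul, map_smul,
    map_smul, map_smul, map_smul, map_smul, map_smul, LinearMap.smul_apply, LinearMap.smul_apply,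
    LinearMap.smul_apply, LinearMap.smul_apply, h1, h2]
  simp only [smul_eq_mul]
  ring

/-- The exchange is an anti-isometry up to a factor. -/
lemma NP.ex_form (z z' : W.H X) : bf W X D f (ex W X D f x e a b z) (ex W X D f x e a b z') =
    -((b / a : ℚ) : W.K) * bf W X D f (pj W X D f x e a b z) z' := by
  have h1 := bf_AS_symm N.gq.gd (x := z') N.hx
  have h2 := bf_AS_symm N.gq.gd (x := z') N.he
  have ha := N.cast_a
  have hb := N.cast_b
  simp only [pj_apply, ex_apply, map_add, LinearMap.add_apply, map_smul, LinearMap.smul_apply,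
    smul_eq_mul, N.xx, N.ee, N.xe, N.ex', ← h1, ← h2]
  push_cast
  field_simp
  ring

/-- The image of the exchange is orthogonal to the complement. -/
lemma NP.ex_orth (z z' : W.H X) :
    bf W X D f (ex W X D f x e a b z) ((1 - pj W X D f x e a b) z') = 0 := by
  have h1 : ∀ w, pj W X D f x e a b w = w →
      bf W X D f w ((1 - pj W X D f x e a b) z') = 0 := by
    intro w hw
    rw [LinearMap.sub_apply, Module.End.one_apply, map_sub, ← N.pj_self, hw, sub_self]
  rw [ex_apply, map_add, LinearMap.add_apply, map_smul, map_smul, map_smul, map_smul,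
    LinearMap.smul_apply, LinearMap.smul_apply, LinearMap.smul_apply, LinearMap.smul_apply,
    h1 e N.pj_e, h1 x N.pj_x]
  simp

lemma NP.ex_orth' (z z' : W.H X) :
    bf W X D f ((1 - pj W X D f x e a b) z') (ex W X D f x e a b z) = 0 := by
  have h1 : ∀ w, pj W X D f x e a b w = w →
      bf W X D f ((1 - pj W X D f x e a b) z') w = 0 := by
    intro w hw
    rw [LinearMap.sub_apply, Module.End.one_apply, map_sub, LinearMap.sub_apply, N.pj_self, hw,
      sub_self]
  rw [ex_apply, map_add, map_smul, map_smul, map_smul, map_smul, h1 e N.pj_e, h1 x N.pj_x]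
  simp

lemma NP.qj_form (z z' : W.H X) :
    bf W X D f ((1 - pj W X D f x e a b) z) ((1 - pj W X D f x e a b) z') =
      bf W X D f ((1 - pj W X D f x e a b) z) z' := by
  have h2 := LinearMap.congr_fun N.pj_pj z
  rw [LinearMap.comp_apply] at h2
  have h3 : pj W X D f x e a b ((1 - pj W X D f x e a b) z) = 0 := by
    rw [LinearMap.sub_apply, Module.End.one_apply, map_sub, h2, sub_self]
  have h4 : (1 - pj W X D f x e a b) z' = z' - pj W X D f x e a b z' := rfl
  rw [h4, map_sub, ← N.pj_self, h3, map_zero, LinearMap.zero_apply, sub_zero]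

/-- **The inductive step.** -/
theorem NP.step {E : Y.Cycles} {g : Module.End W.K (W.H Y)} (G' : Gq W Y E g)
    {T Q : Module.End W.K (W.H Y)} (h : SO W Y E g (b / a) T Q) :
    SO W (X.prod Y) (ops.pull (fst X Y) D + ops.pull (snd X Y) E) (extSum W f g) (b / a)
      (extOp W (ex W X D f x e a b) 1 + extOp W (1 - pj W X D f x e a b) T)
      (extOp W (1 - pj W X D f x e a b) Q) where
  ta := (N.ex_aop.ext AOp.one).add ((AOp.ratSub.sub AOp.one N.pj_aop).ext h.ta)
  qa := (AOp.ratSub.sub AOp.one N.pj_aop).ext h.qa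
  th := by
    have h1 : Hm W 0 (1 - pj W X D f x e a b) := by
      exact hm_sub Hm.one N.pj_hm
    exact (hm_ext N.ex_hm Hm.one).add (hm_ext h1 h.th)
  qh := by
    have h1 : Hm W 0 (1 - pj W X D f x e a b) := by
      exact hm_sub Hm.one N.pj_hm
    exact hm_ext h1 h.qh
  qq := by
    change extOp W _ _ * extOp W _ _ = _
    rw [extOp_mul]
    have h1 := N.qj_qj
    have h2 := h.qq
    change (1 - pj W X D f x e a b) * (1 - pj W X D f x e a b) = _ at h1
    change Q * Q = _ at h2
    rw [h1, h2]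
  form := by
    intro c c'
    set B := bf W (X.prod Y) (ops.pull (fst X Y) D + ops.pull (snd X Y) E) (extSum W f g) with hB
    set p := pj W X D f x e a b with hp
    set τ := ex W X D f x e a b with hτ
    set ρ : W.K := ((b / a : ℚ) : W.K) with hρ
    have hF : (B.compl₁₂ (extOp W τ 1 + extOp W (1 - p) T) (extOp W τ 1 + extOp W (1 - p) T)) =
        (-ρ) • (B - B.compl₁₂ (extOp W (1 - p) Q) LinearMap.id) := by
      apply ext_kunneth_lin
      intro u w
      apply ext_kunneth_lin
      intro u' w'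
      have hext : ∀ (p : W.H X) (q : W.H Y), W.map (fst X Y) p * W.map (snd X Y) q = ext W p q :=
        fun _ _ => rfl
      simp only [LinearMap.compl₁₂_apply, LinearMap.add_apply, LinearMap.smul_apply,
        LinearMap.sub_apply, LinearMap.id_apply, hext, extOp_ext, map_add, hB,
        N.gq.fr.bf_ext G'.fr, smul_eq_mul, Module.End.one_apply]
      have e1 := N.ex_form u u'
      have e2 := N.ex_orth u u'
      have e3 := N.ex_orth' u' u
      have e4 := N.qj_form u u'
      have e5 := h.form w w'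
      have e6 : bf W X D f ((1 - p) u) u' = bf W X D f u u' - bf W X D f (p u) u' := by
        rw [LinearMap.sub_apply, map_sub, LinearMap.sub_apply]; rfl
      simp only [LinearMap.sub_apply, Module.End.one_apply, ← hp, ← hτ] at e1 e2 e3 e4 e6
      rw [e1, e2, e3, e4, e5, e6, hρ]
      ring
    have := congrArg (fun F => F c c') hF
    simpa only [LinearMap.compl₁₂_apply, LinearMap.smul_apply, LinearMap.sub_apply,
      LinearMap.id_apply, smul_eq_mul] using this

lemma NP.step_rank {Q : Module.End W.K (W.H Y)} (hQ : Q ∘ₗ Q = Q) :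
    finrank W.K (LinearMap.range (extOp W (1 - pj W X D f x e a b) Q)) =
      (finrank W.K (W.H X) - 2) * finrank W.K (LinearMap.range Q) := by
  rw [Y133.Half.finrank_extOp N.qj_qj hQ, ← N.qj_rank, Nat.add_sub_cancel]

end NP

/-- The start of the induction. -/
lemma SO.base (ρ : ℚ) : SO W X D f ρ 0 1 where
  ta := AOp.zero
  qa := AOp.one
  th := Hm.zero
  qh := Hm.one
  qq := rfl
  form z z' := by
    rw [Module.End.one_apply, sub_self, mul_zero, LinearMap.zero_apply, map_zero,
      LinearMap.zero_apply]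

end Pool.Agent.R910.Sgn
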