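import Pool.Agent.R910.Sgn.Lower

/-!
# The rank of the intersection form and the number of primitive classes
-/

open CategoryTheory AlgebraicGeometry Finset

universe u v

namespace Pool.Agent.R910.Sgn

open Module
open Pool.Agent.H914 Pool.Agent.H914.VarClass Pool.Agent.H914.VarClass.Obj
  Pool.Agent.H914.WeilCohomology Pool.Agent.H281R3.HT Pool.Agent.W552 Pool.Agent.W539.Ker
  Pool.Agent.Y133.Half

variable {k : Type u} [Field k] {𝒱 : VarClass k} {ops : CycleOps 𝒱}
  {W : WeilCohomology.{u, v} ops} {X Y Z : 𝒱.Obj} {D : X.Cycles} {f : Module.End W.K (W.H X)}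

/-- A maximal orthogonal family of algebraic classes of weight `m` spans the algebraic classes of
weight `m` modulo numerical equivalence. -/
lemma fam_span (G : Gd W X D f) (m : ℤ) {ι : Type} [Fintype ι] {y : ι → W.H X} {s : ι → ℚ}
    (h1 : ∀ i, AS W X (y i)) (h2 : ∀ i, wt (W.isInternal X) X.dim (y i) = (m : W.K) • y i)
    (h3 : ∀ i, s i ≠ 0) (h4 : ∀ i, bf W X D f (y i) (y i) = (s i : W.K))
    (h5 : ∀ i j, i ≠ j → bf W X D f (y i) (y j) = 0)
    (h6 : ∀ u, AS W X u → wt (W.isInternal X) X.dim u = (m : W.K) • u →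
      (∀ i, bf W X D f u (y i) = 0) → bf W X D f u u = 0) {u : W.H X} (hu : AS W X u)
    (hum : wt (W.isInternal X) X.dim u = (m : W.K) • u) :
    ∃ c : ι → ℚ, ∀ v, AS W X v → W.tr X (u * v) = ∑ i, (c i : W.K) * W.tr X (y i * v) := by
  classical
  have F := G.fr
  -- the projection to the complement of the family
  have key : ∀ u, AS W X u → wt (W.isInternal X) X.dim u = (m : W.K) • u →
      ∃ c : ι → ℚ, AS W X (u - ∑ i, (c i : W.K) • y i) ∧
        wt (W.isInternal X) X.dim (u - ∑ i, (c i : W.K) • y i) =
          (m : W.K) • (u - ∑ i, (c i : W.K) • y i) ∧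
        ∀ j, bf W X D f (u - ∑ i, (c i : W.K) • y i) (y j) = 0 := by
    intro u hu hum
    choose e he using fun i => F.bf_rat hu (h1 i)
    refine ⟨fun i => e i / s i, AS.ratSub.sub hu (AS.ratSub.sum _ fun i _ => (h1 i).smul _),
      ?_, ?_⟩
    · rw [map_sub, hum, map_sum, smul_sub, Finset.smul_sum]
      congr 1
      apply Finset.sum_congr rfl
      intro i _
      rw [map_smul, h2, smul_comm]
    · intro j
      rw [map_sub, LinearMap.sub_apply, map_sum, LinearMap.sum_apply, he,
        Finset.sum_eq_single j]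
      · rw [map_smul, LinearMap.smul_apply, h4, smul_eq_mul, ← Rat.cast_mul,
          div_mul_cancel₀ _ (h3 j), sub_self]
      · intro i _ hi
        rw [map_smul, LinearMap.smul_apply, h5 _ _ hi, smul_zero]
      · intro h0; exact absurd (Finset.mem_univ _) h0
  obtain ⟨c, hc1, hc2, hc3⟩ := key u hu hum
  set u' := u - ∑ i, (c i : W.K) • y i with hu'
  -- the radical
  have hsame : ∀ v, AS W X v → wt (W.isInternal X) X.dim v = (m : W.K) • v →
      bf W X D f u' v = 0 := by
    intro v hv hvm
    obtain ⟨c', hc1', hc2', hc3'⟩ := key v hv hvm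
    set v' := v - ∑ i, (c' i : W.K) • y i with hv'
    have e1 : bf W X D f u' v = bf W X D f u' v' := by
      rw [hv', map_sub (bf W X D f u'), map_sum (bf W X D f u'),
        Finset.sum_eq_zero (fun i _ => by rw [map_smul (bf W X D f u'), hc3, smul_zero]),
        sub_zero]
    have e2 := h6 u' hc1 hc2 hc3
    have e3 := h6 v' hc1' hc2' hc3'
    have e4 := h6 (u' + v') (hc1.add hc1') (by rw [map_add, hc2, hc2', smul_add])
      (fun i => by rw [map_add, LinearMap.add_apply, hc3, hc3', add_zero])
    have e5 : bf W X D f v' u' = bf W X D f u' v' := bf_AS_symm G hc1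
    simp only [map_add, LinearMap.add_apply] at e4
    rw [e2, e3, e5, zero_add, add_zero, ← two_mul] at e4
    rw [e1]
    exact (mul_eq_zero.1 e4).resolve_left two_ne_zero
  have hall : ∀ v, AS W X v → bf W X D f u' v = 0 := by
    intro v hv
    rcases AS_wt hc1 hc2 with h0 | ⟨j, hj, hj'⟩
    · rw [h0, map_zero, LinearMap.zero_apply]
    · rw [Fr.AS_sum hv, map_sum]
      apply Finset.sum_eq_zero
      intro i _
      by_cases hij : i = j
      · subst hij
        apply hsame _ (AS.of (hv.proj i))
        rw [Fr.wt_gr (alg_gr (hv.proj i))]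
        congr 1
        have : ((2 * i : ℤ) : W.K) = ((X.dim + m : ℤ) : W.K) := by rw [hj]
        push_cast at this ⊢
        linear_combination this
      · exact F.bf_deg (alg_gr hj') (alg_gr (hv.proj i)) (by omega)
  refine ⟨c, fun v hv => ?_⟩
  have e1 := hall (st W X D f v) (F.st_AS hv)
  rw [bf_apply, G.st_st_apply, hu', sub_mul, map_sub, Finset.sum_mul, map_sum, sub_eq_zero] at e1
  rw [e1]
  apply Finset.sum_congr rfl
  intro i _
  rw [smul_mul_assoc, map_smul, smul_eq_mul]

/-- **The rank of the intersection form is at most `dim + 1` times the number of primitive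
classes.** -/
theorem a_le_total (G : Gd W X D f) : (cyc W).a X ≤ (X.dim + 1) * total W ⟨X, D⟩ := by
  classical
  choose ι hι y s h1 h2 h3 h4 h5 h6 h7 h8 using
    fun j : Fin (X.dim + 1) => exists_fam2 G.fr (2 * (j : ℕ) - X.dim : ℤ)
  set C := (cyc W).C X with hC
  have hmem : ∀ {x : W.H X}, AS W X x → x ∈ C := fun hx => KA.of hx
  let φ : (Σ j : Fin (X.dim + 1), ι j) → (C →ₗ[W.K] W.K) := fun p =>
    (cyc W).F X 1 ⟨y p.1 p.2, hmem (h1 p.1 p.2)⟩
  have hcard : ∀ j, Fintype.card (ι j) ≤ total W ⟨X, D⟩ := by
    intro j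
    have e1 : Fintype.card (ι j) = (univ.filter (fun i => 0 < s j i)).card +
        (univ.filter (fun i => s j i < 0)).card := by
      rw [← Finset.card_univ, ← Finset.card_union_of_disjoint]
      · congr 1
        ext i
        simp only [Finset.mem_univ, Finset.mem_union, Finset.mem_filter, true_and, true_iff]
        rcases lt_trichotomy (s j i) 0 with h0 | h0 | h0
        · exact Or.inr h0
        · exact absurd h0 (h3 j i)
        · exact Or.inl h0
      · rw [Finset.disjoint_filter]
        intro i _ hi hi'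
        exact absurd hi (not_lt.2 hi'.le)
    rw [e1, h7, h8, total, Finset.sum_add_distrib]
    exact Nat.add_le_add (wsumN_le _ _ _) (wsumN_le _ _ _)
  have hrange : LinearMap.range ((cyc W).F X 1) ≤ Submodule.span W.K (Set.range φ) := by
    rintro _ ⟨⟨c, hc⟩, rfl⟩
    have hc' : c ∈ Submodule.span W.K {x | AS W X x} := hc
    have key : ∀ c (hc : c ∈ Submodule.span W.K {x | AS W X x}),
        (cyc W).F X 1 ⟨c, hc⟩ ∈ Submodule.span W.K (Set.range φ) := by
      intro c hc
      induction hc using Submodule.span_induction with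
      | mem x hx =>
        have hx' : AS W X x := hx
        have e1 : (⟨x, Submodule.subset_span hx⟩ : C) = ∑ j ∈ Finset.range (X.dim + 1),
            (⟨proj (W.isInternal X) (2 * j) x, hmem (AS.of (hx'.proj j))⟩ : C) := by
          apply Subtype.ext
          rw [AddSubmonoidClass.coe_finset_sum]
          exact Fr.AS_sum hx'
        change (cyc W).F X 1 (⟨x, Submodule.subset_span hx⟩ : C) ∈ _
        rw [e1, map_sum]
        apply Submodule.sum_mem
        intro j hj
        have hj' : j < X.dim + 1 := Finset.mem_range.1 hj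
        have hp := hx'.proj j
        obtain ⟨c, hc⟩ := fam_span G (2 * ((⟨j, hj'⟩ : Fin (X.dim + 1)) : ℕ) - X.dim : ℤ)
          (h1 ⟨j, hj'⟩) (h2 ⟨j, hj'⟩) (h3 ⟨j, hj'⟩) (h4 ⟨j, hj'⟩) (h5 ⟨j, hj'⟩) (h6 ⟨j, hj'⟩)
          (AS.of hp) (by
            rw [Fr.wt_gr (alg_gr hp)]
            congr 1
            push_cast
            ring)
        have e2 : (cyc W).F X 1 (⟨proj (W.isInternal X) (2 * j) x, hmem (AS.of hp)⟩ : C) =
            ∑ i, (c i : W.K) • φ ⟨⟨j, hj'⟩, i⟩ := by
          apply LinearMap.ext
          rintro ⟨v, hv⟩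
          rw [LinearMap.sum_apply]
          have hv' : v ∈ Submodule.span W.K {x | AS W X x} := hv
          change W.tr X ((1 : Module.End W.K (W.H X)) (proj (W.isInternal X) (2 * j) x) * v) =
            ∑ i, (c i : W.K) * W.tr X ((1 : Module.End W.K (W.H X)) (y ⟨j, hj'⟩ i) * v)
          simp only [Module.End.one_apply]
          clear hv
          induction hv' using Submodule.span_induction with
          | mem v hv => exact hc v hv
          | zero => simp
          | add v v' _ _ h h' =>
            rw [mul_add, map_add, h, h', ← Finset.sum_add_distrib]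
            apply Finset.sum_congr rfl
            intro i _
            rw [mul_add, map_add, mul_add]
          | smul r v _ h =>
            rw [mul_smul_comm, map_smul, h, smul_eq_mul, Finset.mul_sum]
            apply Finset.sum_congr rfl
            intro i _
            rw [mul_smul_comm, map_smul, smul_eq_mul, mul_left_comm]
        rw [e2]
        exact Submodule.sum_mem _ fun i _ => Submodule.smul_mem _ _
          (Submodule.subset_span ⟨_, rfl⟩)
      | zero =>
        have : (⟨0, Submodule.zero_mem _⟩ : C) = 0 := rfl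
        change (cyc W).F X 1 (⟨0, Submodule.zero_mem _⟩ : C) ∈ _
        rw [this, map_zero]
        exact Submodule.zero_mem _
      | add a b ha hb iha ihb =>
        have : (⟨a + b, Submodule.add_mem _ ha hb⟩ : C) = ⟨a, ha⟩ + ⟨b, hb⟩ := rfl
        change (cyc W).F X 1 (⟨a + b, Submodule.add_mem _ ha hb⟩ : C) ∈ _
        rw [this, map_add]
        exact Submodule.add_mem _ iha ihb
      | smul r a ha iha =>
        have : (⟨r • a, Submodule.smul_mem _ _ ha⟩ : C) = r • ⟨a, ha⟩ := rfl
        change (cyc W).F X 1 (⟨r • a, Submodule.smul_mem _ _ ha⟩ : C) ∈ _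
        rw [this, map_smul]
        exact Submodule.smul_mem _ _ iha
    exact key c hc'
  rw [Sys.a, rk]
  refine (Submodule.finrank_mono hrange).trans ?_
  refine (finrank_range_le_card φ).trans ?_
  rw [Fintype.card_sigma]
  calc ∑ j, Fintype.card (ι j) ≤ ∑ _j : Fin (X.dim + 1), total W ⟨X, D⟩ :=
        Finset.sum_le_sum fun j _ => hcard j
    _ = (X.dim + 1) * total W ⟨X, D⟩ := by
        rw [Finset.sum_const, Finset.card_univ, Fintype.card_fin, smul_eq_mul]

/-- The rank of the intersection form of a product is at least the rank for a factor. -/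
theorem a_mono (S : Sys W) {η : W.H Y} (hη : η ∈ S.C Y) (h0 : W.tr Y η ≠ 0) :
    S.a X ≤ S.a (X.prod Y) := by
  have e1 := rk_comp_le (A := S.C (X.prod Y)) (B := S.C (X.prod Y)) (A' := S.C X) (B' := S.C X)
    (S.F (X.prod Y) 1) (S.mapS (fst X Y))
    (((LinearMap.mulRight W.K (W.map (snd X Y) η)).restrict fun _ hc =>
      S.mul hc (S.map _ hη)) ∘ₗ S.mapS (fst X Y))
  have e2 : (S.F (X.prod Y) 1).compl₁₂ (S.mapS (fst X Y))
      (((LinearMap.mulRight W.K (W.map (snd X Y) η)).restrict fun _ hc =>
        S.mul hc (S.map _ hη)) ∘ₗ S.mapS (fst X Y)) = (W.tr Y η) • S.F X 1 := by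
    apply LinearMap.ext
    rintro ⟨c, hc⟩
    apply LinearMap.ext
    rintro ⟨d, hd⟩
    change W.tr (X.prod Y) (W.map (fst X Y) c * (W.map (fst X Y) d * W.map (snd X Y) η)) =
      W.tr Y η * W.tr X (c * d)
    rw [← mul_assoc, ← map_mul, W.tr_prod, mul_comm]
  rw [e2] at e1
  refine le_trans ?_ e1
  have e3 : LinearMap.range (W.tr Y η • S.F X 1) = LinearMap.range (S.F X 1) :=
    LinearMap.range_smul _ _ h0
  rw [Sys.a, rk, rk, e3]

end Pool.Agent.R910.Sgn
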