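import Pool.Agent.R910.Sgn.PIso

/-!
# The upper bound for the sum of the absolute values of the signatures
-/

open CategoryTheory AlgebraicGeometry Finset

universe u v

namespace Pool.Agent.R910.Sgn

open Module
open Pool.Agent.H914 Pool.Agent.H914.VarClass Pool.Agent.H914.VarClass.Obj
  Pool.Agent.H914.WeilCohomology Pool.Agent.H281R3.HT Pool.Agent.W552 Pool.Agent.W539.Ker
  Pool.Agent.Y133.Half

variable {k : Type u} [Field k] {𝒱 : VarClass k} {ops : CycleOps 𝒱}
  {W : WeilCohomology.{u, v} ops} {P Q R P' Q' : Polarized 𝒱}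

/-- The class of polarized varieties with frames. -/
def HasGq (W : WeilCohomology.{u, v} ops) (P : Polarized 𝒱) : Prop := ∃ f, Gq W P.X P.D f

lemma HasGq.cyc (h : HasGq W P) : P.X.IsCyc 1 P.D := by
  obtain ⟨f, G⟩ := h
  exact G.fr.hD

lemma HasGq.prod (h : HasGq W P) (h' : HasGq W Q) : HasGq W (P.prod ops Q) := by
  obtain ⟨f, G⟩ := h
  obtain ⟨g, G'⟩ := h'
  exact ⟨_, G.prod G'⟩

lemma HasGq.power (h : HasGq W P) (m : ℕ) : HasGq W (power ops P m) := by
  induction m with
  | zero => exact h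
  | succ m ih => exact ih.prod h

lemma HasGq.of (hD : P.X.IsCyc 1 P.D) (hHL : HardLefschetz W P.X P.D)
    (hB : LefschetzB W P.X P.D) : HasGq W P := exists_gq hD hHL hB

lemma finrank_power (P : Polarized 𝒱) (m : ℕ) :
    finrank W.K (W.H (power ops P m).X) = finrank W.K (W.H P.X) ^ (m + 1) := by
  induction m with
  | zero => rw [zero_add, pow_one]; rfl
  | succ m ih =>
    change finrank W.K (W.H ((power ops P m).X.prod P.X)) = _
    rw [Y133.Half.finrank_prod, ih, ← pow_succ]

lemma dim_power (P : Polarized 𝒱) (m : ℕ) :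
    (power ops P m).X.dim = (m + 1) * P.X.dim := by
  induction m with
  | zero => rw [zero_add, one_mul]; rfl
  | succ m ih =>
    change ((power ops P m).X.prod P.X).dim = _
    rw [dim_prod, ih]; ring

/-- The induction. -/
theorem upper_aux (hP : HasGq W P) (hQ : HasGq W Q) {m₀ : ℕ} {f : Module.End W.K _}
    {x e : W.H (power ops P m₀).X} {a b : ℚ}
    (N : NP W (power ops P m₀).X (power ops P m₀).D f x e a b) (l s : ℕ) :
    ∃ (R : Polarized 𝒱) (g : Module.End W.K (W.H R.X)) (T U : Module.End W.K (W.H R.X)),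
      PIso W R ((power ops P ((m₀ + 1) * s + l)).prod ops Q) ∧ Gq W R.X R.D g ∧
      SO W R.X R.D g (b / a) T U ∧ finrank W.K (LinearMap.range U) =
        (finrank W.K (W.H P.X) ^ (m₀ + 1) - 2) ^ s *
          (finrank W.K (W.H P.X) ^ (l + 1) * finrank W.K (W.H Q.X)) := by
  induction s with
  | zero =>
    obtain ⟨g, G⟩ := (hP.power l).prod hQ
    refine ⟨_, g, 0, 1, PIso.of_eq (by rw [mul_zero, zero_add]), G, SO.base _, ?_⟩
    have h2 : LinearMap.range (1 : Module.End W.K (W.H ((power ops P l).prod ops Q).X)) = ⊤ :=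
      LinearMap.range_id
    rw [h2, finrank_top, pow_zero, one_mul, ← finrank_power (ops := ops)]
    exact Y133.Half.finrank_prod _ _
  | succ s ih =>
    obtain ⟨R, g, T, U, hR, G, hS, hr⟩ := ih
    refine ⟨(power ops P m₀).prod ops R, _, _, _, ?_, N.gq.prod G, N.step G hS, ?_⟩
    · refine ((PIso.refl (power ops P m₀)).prod hR).trans ?_
      refine (PIso.assoc _ _ _).symm.trans ?_
      refine (PIso.prod (PIso.power P m₀ _) (PIso.refl Q)).trans (PIso.of_eq ?_)
      rw [show m₀ + ((m₀ + 1) * s + l) + 1 = (m₀ + 1) * (s + 1) + l by ring]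
    · refine (N.step_rank hS.qq).trans ?_
      rw [hr, finrank_power, pow_succ]
      ring

/-- **The upper bound.** -/
theorem upper (hP : HasGq W P) (hQ : HasGq W Q) {m₀ : ℕ} {f : Module.End W.K _}
    {x e : W.H (power ops P m₀).X} {a b : ℚ}
    (N : NP W (power ops P m₀).X (power ops P m₀).D f x e a b) (l s : ℕ) :
    excess W ((power ops P ((m₀ + 1) * s + l)).prod ops Q) ≤
      ((((m₀ + 1) * s + l + 1) * P.X.dim + Q.X.dim + 2 : ℕ) : ℤ) *
        (((finrank W.K (W.H P.X) ^ (m₀ + 1) - 2) ^ s *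
          (finrank W.K (W.H P.X) ^ (l + 1) * finrank W.K (W.H Q.X)) : ℕ) : ℤ) := by
  obtain ⟨R, g, T, U, hR, G, hS, hr⟩ := upper_aux hP hQ N l s
  have h1 := hS.excess_le G.gd (div_pos N.hb N.ha)
  rw [hr] at h1
  rw [← hR.excess_eq G.fr.hD ((hP.power _).prod hQ).cyc]
  have h2 : R.X.dim = ((m₀ + 1) * s + l + 1) * P.X.dim + Q.X.dim := by
    rw [hR.1]
    change ((power ops P ((m₀ + 1) * s + l)).X.prod Q.X).dim = _
    rw [dim_prod, dim_power]
  rw [h2] at h1
  push_cast at h1 ⊢
  exact h1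

end Pool.Agent.R910.Sgn
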